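import Pool.Agent.Lib.ALL_h18.AT

/-!
# The tame toric theorem, abstract form: all `W l` are equal, monomial units
-/

set_option autoImplicit false
set_option linter.unusedSectionVars false

namespace Pool.Agent.ALL_h18

open Pool.Agent.TAO (OVal VPos)

universe u w

variable {𝕂 : Type w} [Field 𝕂] [LinearOrder 𝕂] [IsStrictOrderedRing 𝕂] {K : Type u} [Field K]
  {p : ℕ} {k C : Subring K} {𝔪 : Set K} {r D : ℕ} {x : Fin r → K} {y : Fin D → K} {u : Fin r → 𝕂}
  {ι : Type*} {W : ι → OVal 𝕂 K}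

/-- The constants in a quotient. -/
def kq (k : Subring K) (Q : Ideal C) : Subring (C ⧸ Q) :=
  (k.comap C.subtype).map (Ideal.Quotient.mk Q)

namespace TS0

variable (h : TS0 p k C 𝔪 x y u W) [hpf : Fact p.Prime] [CharP K p]
include h

theorem kq_unit (Q : Ideal C) : ∀ c ∈ kq k Q, c ≠ 0 → IsUnit c := by
  rintro _ ⟨c, hc, rfl⟩ hne
  have hc0 : (c : K) ≠ 0 := by
    intro h0
    apply hne
    have : c = 0 := Subtype.ext h0
    rw [this, map_zero]
  have h1 : IsUnit c := by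
    refine IsUnit.of_mul_eq_one ⟨(c : K)⁻¹, h.k_le (h.k_inv _ hc)⟩ ?_
    apply Subtype.ext
    exact mul_inv_cancel₀ hc0
  exact h1.map _

theorem kq_root (Q : Ideal C) : ∀ c ∈ kq k Q, ∃ d ∈ kq k Q, d ^ p = c := by
  rintro _ ⟨c, hc, rfl⟩
  obtain ⟨d, hd, h1⟩ := h.k_root _ hc
  refine ⟨Ideal.Quotient.mk Q ⟨d, h.k_le hd⟩, ⟨⟨d, h.k_le hd⟩, hd, rfl⟩, ?_⟩
  rw [← map_pow]
  congr 1
  apply Subtype.ext
  exact h1

theorem res_quot [Nonempty ι] (a : C ⧸ h.J) :
    ∃ c ∈ kq k h.J, a - c ∈ Iy (fun i => Ideal.Quotient.mk h.J (h.yc i)) := by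
  obtain ⟨a, rfl⟩ := Ideal.Quotient.mk_surjective a
  obtain ⟨c, hc, h1⟩ := h.res a a.2
  refine ⟨Ideal.Quotient.mk h.J ⟨c, h.k_le hc⟩, ⟨⟨c, h.k_le hc⟩, hc, rfl⟩, ?_⟩
  rw [← map_sub, h.Iy_eq_map, Ideal.mem_quotient_iff_mem_sup, ← h.mI_eq]
  exact h1

theorem YP_mul {j : ℕ} {e c : K} (he : e ∈ YP C y j) (hc : c ∈ C) : c * e ∈ YP C y j := by
  unfold YP at he ⊢
  induction he using AddSubgroup.closure_induction with
  | mem e he =>
    obtain ⟨β, hβ, b, hb, rfl⟩ := he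
    exact AddSubgroup.subset_closure ⟨β, hβ, c * b, C.mul_mem hc hb, by ring⟩
  | zero => rw [mul_zero]; exact AddSubgroup.zero_mem _
  | add e f _ _ h1 h2 => rw [mul_add]; exact AddSubgroup.add_mem _ h1 h2
  | neg e _ h1 => rw [mul_neg]; exact AddSubgroup.neg_mem _ h1

theorem YP_y {j : ℕ} {e : K} (he : e ∈ YP C y j) (i : Fin D) : e * y i ∈ YP C y (j + 1) := by
  unfold YP at he ⊢
  induction he using AddSubgroup.closure_induction with
  | mem e he =>
    obtain ⟨β, hβ, b, hb, rfl⟩ := he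
    refine AddSubgroup.subset_closure ⟨β + Pi.single i 1, ?_, b, hb, ?_⟩
    · simp only [Pi.add_apply, Finset.sum_add_distrib, hβ]
      simp
    · rw [ymon_add, ymon_single]; ring
  | zero => rw [zero_mul]; exact AddSubgroup.zero_mem _
  | add e f _ _ h1 h2 => rw [add_mul]; exact AddSubgroup.add_mem _ h1 h2
  | neg e _ h1 => rw [neg_mul]; exact AddSubgroup.neg_mem _ h1

/-- `(y)^j C` as an ideal. -/
theorem mem_YP (j : ℕ) : ∀ a ∈ Iy h.yc ^ j, (a : K) ∈ YP C y j := by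
  induction j with
  | zero =>
    intro a _
    refine AddSubgroup.subset_closure ⟨0, by simp, a, a.2, ?_⟩
    rw [ymon_zero, one_mul]
  | succ j ih =>
    refine pow_induction (y := h.yc) (j := j) ?_ ?_ ?_
    · exact AddSubgroup.zero_mem _
    · intro a b ha hb
      exact AddSubgroup.add_mem _ ha hb
    · intro a ha i
      exact h.YP_y (ih a ha) i

end TS0

namespace TS

variable (h : TS p k C 𝔪 x y u W) [hpf : Fact p.Prime] [CharP K p]
include h

/-- Separatedness, in ideal form. -/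
theorem krull' (l : ι) (a : C) (ha : ∀ j, Ideal.Quotient.mk (h.P l) a ∈
    Iy (fun i => Ideal.Quotient.mk (h.P l) (h.yc i)) ^ j) : VPos (W l) (a : K) := by
  refine h.krull l a a.2 fun j => ?_
  have h1 := ha j
  rw [h.Iy_eq_map, ← Ideal.map_pow, Ideal.mem_quotient_iff_mem_sup] at h1
  obtain ⟨e, he, f, hf, hef⟩ := Submodule.mem_sup.1 h1
  refine ⟨e, h.mem_YP j e he, ?_⟩
  have : (a : K) - e = f := by rw [← hef]; push_cast; ring
  rw [this]
  exact hf

/-- (c2) All positive ideals are equal. -/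
theorem P_eq (l l' : ι) : h.P l ≤ h.P l' := by
  have : Nonempty ι := ⟨l⟩
  intro a ha
  refine h.krull' l' a fun j => ?_
  have h0 := h.charP_quot (h.P l) (h.P_le l)
  have key := comap_pow (y := fun i => Ideal.Quotient.mk h.J (h.yc i)) (kq k h.J)
    (Ideal.Quotient.factor (h.J_le_P l)) h.res_quot
    (h.kq_unit h.J) (h.kq_root h.J) (p := p) (by
      have := h.isPB_P l
      simpa using this) (by
      have := h.Iy_ne_top (h.P l) (h.P_le l)
      simpa using this) j (Ideal.Quotient.mk h.J a) (by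
      have h1 : Ideal.Quotient.factor (h.J_le_P l) (Ideal.Quotient.mk h.J a) =
          Ideal.Quotient.mk (h.P l) a := by simp
      rw [h1, Ideal.Quotient.eq_zero_iff_mem.2 ha]
      exact Ideal.zero_mem _)
  rw [h.Iy_eq_map, ← Ideal.map_pow] at key ⊢
  rw [Ideal.mem_quotient_iff_mem_sup] at key ⊢
  exact sup_le_sup_left (h.J_le_P l') _ key

/-- (c2) All valuations are equal on `C`. -/
theorem val_eq_C [Finite ι] (l l' : ι) {a : K} (ha : a ∈ C) (ha0 : a ≠ 0) : W l a = W l' a := by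
  have : Nonempty ι := ⟨l⟩
  obtain ⟨l₀, hl₀⟩ := Finite.exists_min fun l => W l a
  obtain ⟨M, hM, -, htors⟩ := h.tors
  obtain ⟨n, hn⟩ := htors l₀ a ha0
  have hM' : (0 : 𝕂) < M := by exact_mod_cast hM
  set b := a ^ M * xz x (-n) with hb
  have hb0 : b ≠ 0 := mul_ne_zero (pow_ne_zero _ ha0) (xz_ne h.x_ne _)
  have hval : ∀ l, W l b = M * (W l a - W l₀ a) := by
    intro l
    rw [hb, (W l).map_mul (pow_ne_zero _ ha0) (xz_ne h.x_ne _), (W l).map_pow ha0, h.xz_val]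
    have : ∑ j, (((-n) j : ℤ) : 𝕂) * u j = - ∑ j, (n j : 𝕂) * u j := by
      rw [← Finset.sum_neg_distrib]
      exact Finset.sum_congr rfl fun j _ => by push_cast [Pi.neg_apply]; ring
    rw [this, ← hn]
    ring
  have hbC : b ∈ C := by
    refine h.cut _ (((InX.of_mem ha).pow M).mul (InX.xz h.x_ne h.x_mem _)) fun l _ => ?_
    rw [hval l]
    exact mul_nonneg hM'.le (sub_nonneg.2 (hl₀ l))
  have h1 : ∀ l, W l a = W l₀ a := by
    intro l
    by_contra hne
    have h2 : VPos (W l) b := by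
      intro _
      rw [hval l]
      exact mul_pos hM' (sub_pos.2 (lt_of_le_of_ne (hl₀ l) (Ne.symm hne)))
    have h3 := h.P_eq l l₀ (show (⟨b, hbC⟩ : C) ∈ h.P l from h2)
    have h4 : 0 < W l₀ b := h3 hb0
    rw [hval l₀] at h4
    simp at h4
  rw [h1 l, h1 l']

/-- (c2) All valuations are equal. -/
theorem val_eq [Finite ι] (l l' : ι) {a : K} (ha0 : a ≠ 0) : W l a = W l' a := by
  obtain ⟨b, hb, c, hc, hc0, rfl⟩ := h.frac a
  have hb0 : b ≠ 0 := by rintro rfl; rw [zero_div] at ha0; exact ha0 rfl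
  rw [(W l).map_div hb0 hc0, (W l').map_div hb0 hc0, h.val_eq_C l l' hb hb0,
    h.val_eq_C l l' hc hc0]

/-- Membership in `(y)^e C + J`. -/
def Te (e : ℕ) (z : K) : Prop := ∃ hz : z ∈ C, Ideal.Quotient.mk h.J ⟨z, hz⟩ ∈
  Iy (fun i => Ideal.Quotient.mk h.J (h.yc i)) ^ e

theorem Te.add {e : ℕ} {z w : K} (hz : h.Te e z) (hw : h.Te e w) : h.Te e (z + w) := by
  obtain ⟨h1, h2⟩ := hz
  obtain ⟨h3, h4⟩ := hw
  exact ⟨C.add_mem h1 h3, Ideal.add_mem _ h2 h4⟩

theorem Te.sum {τ : Type*} {e : ℕ} (s : Finset τ) (f : τ → K) (hf : ∀ t ∈ s, h.Te e (f t)) :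
    h.Te e (∑ t ∈ s, f t) := by
  classical
  induction s using Finset.induction_on with
  | empty => exact ⟨C.zero_mem, by
      have : (⟨∑ t ∈ (∅ : Finset τ), f t, C.zero_mem⟩ : C) = 0 := rfl
      rw [this, map_zero]; exact Ideal.zero_mem _⟩
  | insert a s ha ih =>
    rw [Finset.sum_insert ha]
    exact Te.add h (hf a (Finset.mem_insert_self a s))
      (ih fun i hi => hf i (Finset.mem_insert_of_mem hi))

theorem Te.mul {e : ℕ} {z w : K} (hz : z ∈ C) (hw : h.Te e w) : h.Te e (z * w) := by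
  obtain ⟨h3, h4⟩ := hw
  refine ⟨C.mul_mem hz h3, ?_⟩
  exact Ideal.mul_mem_left _ (Ideal.Quotient.mk h.J ⟨z, hz⟩) h4

theorem Te.pow {e : ℕ} {z : K} (hz : h.Te e z) : h.Te (p * e) (z ^ p) := by
  obtain ⟨h1, h2⟩ := hz
  refine ⟨C.pow_mem h1 _, ?_⟩
  have : (⟨z ^ p, C.pow_mem h1 p⟩ : C) = (⟨z, h1⟩ : C) ^ p := rfl
  rw [this, map_pow, mul_comm, pow_mul]
  exact Ideal.pow_mem_pow h2 _

theorem Te.mono {e e' : ℕ} (hee : e ≤ e') {z : K} (hz : h.Te e' z) : h.Te e z := by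
  obtain ⟨h1, h2⟩ := hz
  exact ⟨h1, Ideal.pow_le_pow_right hee h2⟩

theorem Te.of_J {e : ℕ} {z : K} (hz : z ∈ C) (hz' : ∀ l, VPos (W l) z) : h.Te e z := by
  refine ⟨hz, ?_⟩
  rw [Ideal.Quotient.eq_zero_iff_mem.2 ((h.mem_J).2 hz')]
  exact Ideal.zero_mem _

/-- The predicate `I_γ ⊆ 𝔪 ^ e` for `γ = W a₀`. -/
def Pj (a₀ : K) (e : ℕ) : Prop := ∀ a b, InX C x a → InX C x b →
  (∀ l, (W l).Ge (W l a₀) a) → (∀ l, (W l).Ge (- W l a₀) b) → h.Te e (a * b)

theorem Pj.step {a₀ : K} (ha₀ : a₀ ≠ 0) {e : ℕ} (hP : h.Pj a₀ e) : h.Pj (a₀ ^ p) (p * e) := by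
  classical
  intro a b ha hb hga hgb
  have hp : (0 : 𝕂) < p := by exact_mod_cast hpf.out.pos
  have hpow : ∀ l, W l (a₀ ^ p) = p * W l a₀ := fun l => (W l).map_pow ha₀ p
  have hinv : ∀ l, W l a₀⁻¹ = - W l a₀ := fun l => (W l).map_inv ha₀
  obtain ⟨c, hc, hc0, e₁, he₁, he₁', hac⟩ := h.split (a₀ := a₀) ha ha₀
    (fun l => by rw [← hpow]; exact hga l)
  obtain ⟨d, hd, hd0, e₂, he₂, he₂', hbd⟩ := h.split (a₀ := a₀⁻¹) hb (inv_ne_zero ha₀)
    (fun l => by
      have := hgb l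
      rw [hpow] at this
      rw [hinv, mul_neg]; exact this)
  have hS : ∀ l, (W l).Ge (p * W l a₀) (∑ α, ymon y (nv α) * c α ^ p) := by
    intro l
    refine OVal.Ge.sum _ _ fun α _ => ?_
    have h1 : (W l).Ge (p * W l a₀) (c α ^ p) := by
      intro h2
      have h3 : c α ≠ 0 := fun h4 => h2 (by rw [h4, zero_pow hpf.out.ne_zero])
      rw [(W l).map_pow h3]
      exact mul_le_mul_of_nonneg_left (hc0 l α h3) hp.le
    have := (h.W_Ge_ymon l (nv α)).mul h1
    rwa [zero_add] at this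
  have hSX : InX C x (∑ α, ymon y (nv α) * c α ^ p) :=
    InX.sum h.x_mem _ _ fun α _ => (InX.of_mem (h.ymon_mem _)).mul ((hc α).pow p)
  -- error terms
  have herr : ∀ s t : K, InX C x s → InX C x t → ∀ γ : ι → 𝕂,
      (∀ l, s ≠ 0 → γ l < W l s) → (∀ l, (W l).Ge (- γ l) t) → h.Te (p * e) (s * t) := by
    intro s t hs ht γ h1 h2
    have hpos : ∀ l, VPos (W l) (s * t) := by
      intro l h3
      have h4 := left_ne_zero_of_mul h3
      have h5 := right_ne_zero_of_mul h3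
      rw [(W l).map_mul h4 h5]
      have := h1 l h4
      have := h2 l h5
      linarith
    exact Te.of_J h (h.cut _ (hs.mul ht) fun l => (hpos l).ge) hpos
  have hT1 : h.Te (p * e) (e₁ * b) := herr e₁ b he₁ hb (fun l => p * W l a₀) he₁'
    (fun l => by have := hgb l; rwa [hpow] at this)
  have hT2 : h.Te (p * e) (e₂ * ∑ α, ymon y (nv α) * c α ^ p) :=
    herr e₂ _ he₂ hSX (fun l => p * W l a₀⁻¹) he₂'
      (fun l => by
        have := hS l
        rw [hinv]
        simpa using this)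
  have hT3 : h.Te (p * e) ((∑ α, ymon y (nv α) * c α ^ p) * ∑ α, ymon y (nv α) * d α ^ p) := by
    rw [Finset.sum_mul_sum]
    refine Te.sum h _ _ fun α _ => Te.sum h _ _ fun β _ => ?_
    have h1 := Te.pow h (hP (c α) (d β) (hc α) (hd β) (fun l => hc0 l α) (fun l => by
      have := hd0 l β
      rwa [hinv] at this))
    have h2 : ymon y (nv α) * c α ^ p * (ymon y (nv β) * d β ^ p) =
        (ymon y (nv α) * ymon y (nv β)) * (c α * d β) ^ p := by ring
    rw [h2]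
    exact Te.mul h (C.mul_mem (h.ymon_mem _) (h.ymon_mem _)) h1
  have hfin : a * b = (∑ α, ymon y (nv α) * c α ^ p) * (∑ α, ymon y (nv α) * d α ^ p) +
      (e₂ * ∑ α, ymon y (nv α) * c α ^ p) + e₁ * b := by
    rw [hac]
    conv_lhs => rw [hbd]
    conv_rhs => rw [hbd]
    ring
  rw [hfin]
  exact Te.add h (Te.add h hT3 hT2) hT1

theorem Pj.pow {a₀ : K} (ha₀ : a₀ ≠ 0) (hP : h.Pj a₀ 1) (t : ℕ) :
    h.Pj (a₀ ^ p ^ t) (p ^ t) := by
  induction t with
  | zero => simpa using hP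
  | succ t ih =>
    have := Pj.step h (pow_ne_zero _ ha₀) ih
    rw [pow_succ, pow_mul, mul_comm (p ^ t) p]
    exact this

theorem Pj.shift {a₀ a₁ : K} (n : Fin r → ℤ)
    (hn : ∀ l, W l a₁ = W l a₀ + ∑ j, (n j : 𝕂) * u j) {e : ℕ} (hP : h.Pj a₁ e) : h.Pj a₀ e := by
  intro a b ha hb hga hgb
  have h1 := hP (a * xz x n) (b * xz x (-n)) (ha.mul (InX.xz h.x_ne h.x_mem _))
    (hb.mul (InX.xz h.x_ne h.x_mem _)) (fun l => by
      have := (hga l).mul (OVal.ge_self (v := W l) (xz x n))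
      rw [h.xz_val] at this
      rw [hn]; exact this) (fun l => by
      have := (hgb l).mul (OVal.ge_self (v := W l) (xz x (-n)))
      rw [h.xz_val] at this
      have h2 : ∑ j, (((-n) j : ℤ) : 𝕂) * u j = - ∑ j, (n j : 𝕂) * u j := by
        rw [← Finset.sum_neg_distrib]
        exact Finset.sum_congr rfl fun j _ => by push_cast [Pi.neg_apply]; ring
      rw [h2] at this
      rw [hn, neg_add]; exact this)
  have h2 : a * xz x n * (b * xz x (-n)) = a * b := by
    rw [xz_neg]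
    have := xz_ne h.x_ne n
    field_simp
  rwa [h2] at h1

/-- An element of `C[1/x]` of the opposite value. -/
theorem exists_opp {a : K} (ha : InX C x a) (ha0 : a ≠ 0) [Finite ι] [Nonempty ι] :
    ∃ b, InX C x b ∧ b ≠ 0 ∧ ∀ l, W l b = - W l a := by
  obtain ⟨M, hM, -, htors⟩ := h.tors
  obtain ⟨n, hn⟩ := htors (Classical.arbitrary ι) a ha0
  refine ⟨a ^ (M - 1) * xz x (-n), (ha.pow _).mul (InX.xz h.x_ne h.x_mem _),
    mul_ne_zero (pow_ne_zero _ ha0) (xz_ne h.x_ne _), fun l => ?_⟩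
  rw [(W l).map_mul (pow_ne_zero _ ha0) (xz_ne h.x_ne _), (W l).map_pow ha0, h.xz_val]
  have h2 : ∑ j, (((-n) j : ℤ) : 𝕂) * u j = - ∑ j, (n j : 𝕂) * u j := by
    rw [← Finset.sum_neg_distrib]
    exact Finset.sum_congr rfl fun j _ => by push_cast [Pi.neg_apply]; ring
  rw [h2, ← hn, h.val_eq (Classical.arbitrary ι) l ha0, Nat.cast_sub hM]
  push_cast
  ring

/-- (c3) Every value is the value of a unit of `C[1/x]`. -/
theorem exists_unit [Finite ι] [Nonempty ι] (a : K) (ha0 : a ≠ 0) :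
    ∃ b, b ≠ 0 ∧ InX C x b ∧ InX C x b⁻¹ ∧ ∀ l, W l b = W l a := by
  -- reduction to `C[1/x]`
  obtain ⟨a₀, ha₀, ha₀0, hval⟩ : ∃ a₀, InX C x a₀ ∧ a₀ ≠ 0 ∧ ∀ l, W l a₀ = W l a := by
    obtain ⟨b, hb, c, hc, hc0, rfl⟩ := h.frac a
    have hb0 : b ≠ 0 := by rintro rfl; rw [zero_div] at ha0; exact ha0 rfl
    obtain ⟨d, hd, hd0, hdv⟩ := h.exists_opp (InX.of_mem hc) hc0
    refine ⟨b * d, (InX.of_mem hb).mul hd, mul_ne_zero hb0 hd0, fun l => ?_⟩
    rw [(W l).map_mul hb0 hd0, hdv, (W l).map_div hb0 hc0]; ring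
  obtain ⟨b₀, hb₀, hb₀0, hbval⟩ := h.exists_opp ha₀ ha₀0
  by_cases hP : h.Pj a₀ 1
  · exfalso
    obtain ⟨M, hM, hcop, htors⟩ := h.tors
    -- `Pj a₀ (p ^ t)` for arbitrarily large `t`
    have hall : ∀ e, h.Pj a₀ e := by
      intro e
      set t := M.totient * e with ht
      have htot : 0 < M.totient := Nat.totient_pos.2 hM
      have h1 : p ^ t ≡ 1 [MOD M] := by
        rw [ht, pow_mul]
        have := (Nat.ModEq.pow_totient hcop.symm).pow e
        simpa using this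
      have h2 : M ∣ p ^ t - 1 := by
        have := (Nat.modEq_iff_dvd' (Nat.one_le_pow _ _ hpf.out.pos)).1 h1.symm
        exact this
      obtain ⟨s, hs⟩ := h2
      have hpt : p ^ t = M * s + 1 := by
        have := Nat.one_le_pow t p hpf.out.pos
        omega
      have hle : e ≤ p ^ t := by
        have h3 : t < p ^ t := Nat.lt_pow_self hpf.out.one_lt
        have h4 : e ≤ t := by rw [ht]; exact Nat.le_mul_of_pos_left e htot
        omega
      obtain ⟨n, hn⟩ := htors (Classical.arbitrary ι) a₀ ha₀0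
      have h5 := Pj.pow h ha₀0 hP t
      have h6 : h.Pj a₀ (p ^ t) := by
        refine Pj.shift h (fun j => (s : ℤ) * n j) (fun l => ?_) h5
        rw [(W l).map_pow ha₀0, hpt]
        have h7 : ∑ j, (((s : ℤ) * n j : ℤ) : 𝕂) * u j = s * ∑ j, (n j : 𝕂) * u j := by
          rw [Finset.mul_sum]
          exact Finset.sum_congr rfl fun j _ => by push_cast; ring
        rw [h7, ← hn, h.val_eq (Classical.arbitrary ι) l ha₀0]
        push_cast
        ring
      exact fun a b ha hb hga hgb => Te.mono h hle (h6 a b ha hb hga hgb)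
    have hTe : ∀ e, h.Te e (a₀ * b₀) := fun e => hall e a₀ b₀ ha₀ hb₀
      (fun l => OVal.ge_self a₀) (fun l => by rw [← hbval]; exact OVal.ge_self b₀)
    obtain ⟨hC, -⟩ := hTe 0
    have h1 := h.krull' (Classical.arbitrary ι) ⟨a₀ * b₀, hC⟩ (fun j => by
      obtain ⟨h1, h2⟩ := hTe j
      rw [h.Iy_eq_map, ← Ideal.map_pow, Ideal.mem_quotient_iff_mem_sup] at h2 ⊢
      exact sup_le_sup_left (h.J_le_P _) _ h2)
    have h2 := h1 (mul_ne_zero ha₀0 hb₀0)
    change 0 < W (Classical.arbitrary ι) (a₀ * b₀) at h2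
    rw [(W _).map_mul ha₀0 hb₀0, hbval] at h2
    simp at h2
  · unfold Pj at hP
    push Not at hP
    obtain ⟨a', b', ha', hb', hga, hgb, hT⟩ := hP
    have hne : a' * b' ≠ 0 := by
      intro h0
      apply hT
      rw [h0]
      exact Te.of_J h C.zero_mem fun l => VPos.zero
    have ha'0 := left_ne_zero_of_mul hne
    have hb'0 := right_ne_zero_of_mul hne
    have hC : a' * b' ∈ C := h.cut _ (ha'.mul hb') fun l _ => by
      rw [(W l).map_mul ha'0 hb'0]
      have := hga l ha'0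
      have := hgb l hb'0
      linarith
    have hm : a' * b' ∉ 𝔪 := by
      intro hm
      apply hT
      refine ⟨hC, ?_⟩
      rw [pow_one, h.Iy_eq_map, Ideal.mem_quotient_iff_mem_sup, ← h.mI_eq]
      exact hm
    have hinv := h.unit _ hC hm
    refine ⟨a', ha'0, ha', ?_, fun l => ?_⟩
    · have : a'⁻¹ = b' * (a' * b')⁻¹ := by field_simp
      rw [this]
      exact hb'.mul (InX.of_mem hinv)
    · have h1 := h.W_ge l _ hinv (inv_ne_zero hne)
      rw [(W l).map_inv hne, (W l).map_mul ha'0 hb'0] at h1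
      have h2 := hga l ha'0
      have h3 := hgb l hb'0
      rw [← hval l]
      linarith

end TS

end Pool.Agent.ALL_h18
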