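import Pool.Agent.Lib.ALL_h18.AT2

/-!
# The tame toric theorem: separatedness from a base ring
-/

set_option autoImplicit false
set_option linter.unusedSectionVars false

namespace Pool.Agent.ALL_h18

open Pool.Agent.TAO (OVal VPos)

universe u w

section

variable {K : Type u} [Field K] {D : ℕ} {y : Fin D → K}

theorem YP_y' (R : Subring K) {j : ℕ} {e : K} (he : e ∈ YP R y j) (i : Fin D) :
    e * y i ∈ YP R y (j + 1) := by
  unfold YP at he ⊢
  induction he using AddSubgroup.closure_induction with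
  | mem e he =>
    obtain ⟨β, hβ, b, hb, rfl⟩ := he
    refine AddSubgroup.subset_closure ⟨β + Pi.single i 1, ?_, b, hb, ?_⟩
    · simp only [Pi.add_apply, Finset.sum_add_distrib, hβ]
      simp
    · rw [ymon_add, ymon_single]; ring
  | zero => rw [zero_mul]; exact AddSubgroup.zero_mem _
  | add e f _ _ h1 h2 => rw [add_mul]; exact AddSubgroup.add_mem _ h1 h2
  | neg e _ h1 => rw [neg_mul]; exact AddSubgroup.neg_mem _ h1

/-- The ideal `(y)^j R`. -/
theorem mem_YP' (R : Subring K) (yR : Fin D → R) (hy : ∀ i, (yR i : K) = y i) (j : ℕ) :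
    ∀ a ∈ Iy yR ^ j, (a : K) ∈ YP R y j := by
  induction j with
  | zero =>
    intro a _
    refine AddSubgroup.subset_closure ⟨0, by simp, a, a.2, ?_⟩
    rw [ymon_zero, one_mul]
  | succ j ih =>
    refine pow_induction (y := yR) (j := j) ?_ ?_ ?_
    · exact AddSubgroup.zero_mem _
    · intro a b ha hb
      exact AddSubgroup.add_mem _ ha hb
    · intro a ha i
      have := YP_y' (y := y) R (ih a ha) i
      rw [← hy i] at this
      exact this

end

section

variable {𝕂 : Type w} [Field 𝕂] [LinearOrder 𝕂] [IsStrictOrderedRing 𝕂] {K : Type u} [Field K]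
  {p : ℕ} {k C : Subring K} {𝔪 : Set K} {r D : ℕ} {x : Fin r → K} {y : Fin D → K} {u : Fin r → 𝕂}
  {ι : Type*} {W : ι → OVal 𝕂 K}

/-- Elements of `(y)^j C` modulo `P l`. -/
theorem TS0.mk_mem (h : TS0 p k C 𝔪 x y u W) (l : ι) {j : ℕ} {e : K}
    (he : e ∈ YP C y j) : ∃ he' : e ∈ C, Ideal.Quotient.mk (h.P l) ⟨e, he'⟩ ∈
      Iy (fun i => Ideal.Quotient.mk (h.P l) (h.yc i)) ^ j := by
  unfold YP at he
  induction he using AddSubgroup.closure_induction with
  | mem e he =>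
    obtain ⟨β, hβ, b, hb, rfl⟩ := he
    refine ⟨C.mul_mem (h.ymon_mem β) hb, ?_⟩
    have h1 : (⟨ymon y β * b, C.mul_mem (h.ymon_mem β) hb⟩ : C) = ymon h.yc β * ⟨b, hb⟩ := by
      apply Subtype.ext
      push_cast
      rw [h.coe_ymon]
    rw [h1, map_mul, map_ymon, ← hβ]
    refine Ideal.mul_mem_right _ _ ?_
    unfold ymon
    rw [← Finset.prod_pow_eq_pow_sum]
    exact Ideal.prod_mem_prod fun i _ => Ideal.pow_mem_pow (ALL_h18.y_mem _ i) _
  | zero => exact ⟨C.zero_mem, by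
      have : (⟨0, C.zero_mem⟩ : C) = 0 := rfl
      rw [this, map_zero]
      exact Ideal.zero_mem _⟩
  | add e f _ _ h1 h2 =>
    obtain ⟨h1, h1'⟩ := h1
    obtain ⟨h2, h2'⟩ := h2
    refine ⟨C.add_mem h1 h2, ?_⟩
    have h3 : (⟨e + f, C.add_mem h1 h2⟩ : C) = ⟨e, h1⟩ + ⟨f, h2⟩ := rfl
    rw [h3, map_add]
    exact Ideal.add_mem _ h1' h2'
  | neg e _ h1 =>
    obtain ⟨h1, h1'⟩ := h1
    refine ⟨C.neg_mem h1, ?_⟩
    have h3 : (⟨-e, C.neg_mem h1⟩ : C) = -⟨e, h1⟩ := rfl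
    rw [h3, map_neg]
    exact Ideal.neg_mem_iff _ |>.2 h1'

theorem TS0.P_prime (h : TS0 p k C 𝔪 x y u W) (l : ι) : (h.P l).IsPrime := by
  refine ⟨?_, ?_⟩
  · intro htop
    have h1 : (1 : C) ∈ h.P l := by rw [htop]; exact Submodule.mem_top
    exact h.m_one (h.P_le l h1)
  · intro a b hab
    rw [h.mem_P] at hab
    by_contra hcon
    rw [not_or, h.mem_P, h.mem_P] at hcon
    obtain ⟨h1, h2⟩ := hcon
    unfold TAO.VPos at h1 h2 hab
    push Not at h1 h2
    obtain ⟨ha0, ha⟩ := h1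
    obtain ⟨hb0, hb⟩ := h2
    have h3 := hab (by push_cast; exact mul_ne_zero ha0 hb0)
    push_cast at h3
    rw [(W l).map_mul ha0 hb0] at h3
    linarith

/-- Separatedness from a base ring `R` over which `C` is integral. -/
theorem TS0.krull_of_base (h : TS0 p k C 𝔪 x y u W)
    [hpf : Fact p.Prime] [CharP K p] (l : ι) (R : Subring K) (hkR : k ≤ R) (hRC : R ≤ C)
    (hint : ∀ a ∈ C, IsIntegral R a) (hyR : ∀ i, y i ∈ R)
    (hres : ∀ a ∈ R, ∃ c ∈ k, ∃ b : Fin D → K, (∀ i, b i ∈ R) ∧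
      TAO.VPos (W l) (a - c - ∑ i, y i * b i))
    (hkr : ∀ a ∈ R, (∀ j, ∃ e ∈ YP R y j, TAO.VPos (W l) (a - e)) → TAO.VPos (W l) a) :
    ∀ a ∈ C, (∀ j : ℕ, ∃ e ∈ YP C y j, TAO.VPos (W l) (a - e)) → TAO.VPos (W l) a := by
  classical
  intro a ha hae
  by_contra hna
  have hP : (h.P l).IsPrime := h.P_prime l
  have hchar := h.charP_quot (h.P l) (h.P_le l)
  let φ : R →+* (C ⧸ h.P l) := (Ideal.Quotient.mk (h.P l)).comp (Subring.inclusion hRC)
  have hφ : ∀ b : R, φ b = Ideal.Quotient.mk (h.P l) ⟨b, hRC b.2⟩ := fun b => rfl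
  set S := φ.range with hS
  let yR : Fin D → R := fun i => ⟨y i, hyR i⟩
  let yS : Fin D → S := fun i => φ.rangeRestrict (yR i)
  let kS : Subring S := (k.comap R.subtype).map φ.rangeRestrict
  have hyS : (fun i => S.subtype (yS i)) = fun i => Ideal.Quotient.mk (h.P l) (h.yc i) := by
    funext i
    rfl
  -- the element `c₀`
  set abar : C ⧸ h.P l := Ideal.Quotient.mk (h.P l) ⟨a, ha⟩ with habar
  have ha0 : abar ≠ 0 := by
    rw [habar, Ne, Ideal.Quotient.eq_zero_iff_mem, h.mem_P]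
    exact hna
  have hSint : IsIntegral S abar := by
    obtain ⟨P, hPm, hP⟩ := hint a ha
    refine ⟨P.map φ.rangeRestrict, hPm.map _, ?_⟩
    rw [Polynomial.eval₂_map]
    have h1 : (algebraMap S (C ⧸ h.P l)).comp φ.rangeRestrict = φ := rfl
    rw [h1, habar]
    change Polynomial.eval₂ ((Ideal.Quotient.mk (h.P l)).comp (Subring.inclusion hRC)) _ P = 0
    rw [← Polynomial.hom_eval₂]
    have h2 : Polynomial.eval₂ (Subring.inclusion hRC) (⟨a, ha⟩ : C) P = 0 := by
      apply Subtype.ext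
      have h3 := Polynomial.hom_eval₂ P (Subring.inclusion hRC) C.subtype (⟨a, ha⟩ : C)
      exact h3.trans hP
    rw [h2, map_zero]
  obtain ⟨c₀, hc₀, hc₀0⟩ : ∃ c : R, φ c ∈ Ideal.span {abar} ∧ φ c ≠ 0 := by
    have h1 := Ideal.comap_ne_bot_of_integral_mem (R := S) (I := Ideal.span {abar}) ha0
      (Ideal.mem_span_singleton_self abar) hSint
    obtain ⟨s, hs, hs0⟩ := Submodule.exists_mem_ne_zero_of_ne_bot h1
    obtain ⟨c, hc⟩ := s.2
    refine ⟨c, ?_, ?_⟩
    · rw [hc]; exact hs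
    · rw [hc]
      intro h2
      exact hs0 (Subtype.ext h2)
  have hpow : ∀ j, φ c₀ ∈ Iy (fun i => Ideal.Quotient.mk (h.P l) (h.yc i)) ^ j := by
    intro j
    obtain ⟨e, he, hev⟩ := hae j
    obtain ⟨he', h1⟩ := h.mk_mem l he
    have h2 : abar = Ideal.Quotient.mk (h.P l) ⟨e, he'⟩ := by
      rw [habar, Ideal.Quotient.eq, h.mem_P]
      exact hev
    rw [← h2] at h1
    exact (Ideal.span_singleton_le_iff_mem _).2 h1 hc₀
  have hcontr : TAO.VPos (W l) (c₀ : K) := by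
    refine hkr c₀ c₀.2 fun j => ?_
    have key := comap_pow (y := yS) kS (φ := S.subtype) (p := p) ?_ ?_ ?_ ?_ ?_ j
      (φ.rangeRestrict c₀) ?_
    · -- lift
      have h1 : Iy yS ^ j = Ideal.map φ.rangeRestrict (Iy yR ^ j) := by
        rw [Ideal.map_pow]
        congr 1
        unfold Iy
        rw [Ideal.map_span, ← Set.range_comp]
        rfl
      rw [h1, Ideal.mem_map_iff_of_surjective _ φ.rangeRestrict_surjective] at key
      obtain ⟨e, he, hee⟩ := key
      refine ⟨e, mem_YP' R yR (fun _ => rfl) j e he, ?_⟩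
      have h2 : φ e = φ c₀ := congrArg Subtype.val hee
      rw [hφ, hφ, Ideal.Quotient.eq, h.mem_P] at h2
      have h3 := h2.neg
      push_cast at h3
      rwa [neg_sub] at h3
    · rintro ⟨_, b, rfl⟩
      obtain ⟨c, hc, d, hd, hcd⟩ := hres b b.2
      refine ⟨φ.rangeRestrict ⟨c, hkR hc⟩, ⟨⟨c, hkR hc⟩, hc, rfl⟩, ?_⟩
      have h1 : (⟨φ b, b, rfl⟩ : S) - φ.rangeRestrict ⟨c, hkR hc⟩ =
          ∑ i, yS i * φ.rangeRestrict ⟨d i, hd i⟩ := by
        apply Subtype.ext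
        push_cast
        change φ b - φ ⟨c, hkR hc⟩ = ∑ i, φ (yR i) * φ ⟨d i, hd i⟩
        rw [← map_sub]
        simp only [← map_mul]
        rw [← map_sum, hφ, hφ, Ideal.Quotient.eq, h.mem_P]
        push_cast
        exact hcd
      rw [h1]
      exact Ideal.sum_mem _ fun i _ => Ideal.mul_mem_right _ _ (ALL_h18.y_mem _ i)
    · rintro _ ⟨c, hc, rfl⟩ hne
      have hc0 : (c : K) ≠ 0 := by
        intro h0
        apply hne
        have : c = 0 := Subtype.ext h0
        rw [this, map_zero]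
      have h1 : IsUnit c := by
        refine IsUnit.of_mul_eq_one ⟨(c : K)⁻¹, hkR (h.k_inv _ hc)⟩ ?_
        apply Subtype.ext
        exact mul_inv_cancel₀ hc0
      exact h1.map _
    · rintro _ ⟨c, hc, rfl⟩
      obtain ⟨d, hd, h1⟩ := h.k_root _ hc
      refine ⟨φ.rangeRestrict ⟨d, hkR hd⟩, ⟨⟨d, hkR hd⟩, hd, rfl⟩, ?_⟩
      rw [← map_pow]
      congr 1
      apply Subtype.ext
      exact h1
    · rw [hyS]
      exact h.isPB_P l
    · rw [hyS]
      exact h.Iy_ne_top (h.P l) (h.P_le l)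
    · rw [hyS]
      exact hpow j
  apply hc₀0
  rw [hφ, Ideal.Quotient.eq_zero_iff_mem, h.mem_P]
  exact hcontr

end

end Pool.Agent.ALL_h18
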