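import Pool.Agent.Lib.ALL_h18.ZDefs
import Pool.Agent.Lib.TAO.CentreA

/-!
# PROJECT ALL, block Z: the objects of the instance of `TS` over `A₂`
-/

set_option autoImplicit false

namespace Pool.Agent.ALL_h18

open Pool.Agent.H15JM (RVal)
open Pool.Agent.LU1 (VPos locv FracIs fixO GoodBasis mem_fixO)
open Pool.Agent.TAO (OVal)
open Pool.Agent.ALL (FR ICl decP)
open Pool.Agent.ALLZ (NRing CN DP FD RD AH le_AH)
open Pool.Agent.ALL6 (AX)

universe u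

variable {k Ω : Type u} [Field k] [Field Ω] [Algebra k Ω] {v : RVal Ω} {D : ℕ}
variable {K : IntermediateField k Ω} {N : IntermediateField K Ω}

/-- The inclusion of a subfield of `N`. -/
def toN (N : IntermediateField K Ω) (L : IntermediateField k Ω) (hL : ∀ a ∈ L, a ∈ N) :
    L →+* N where
  toFun a := ⟨a, hL a a.2⟩
  map_one' := rfl
  map_mul' _ _ := rfl
  map_zero' := rfl
  map_add' _ _ := rfl

theorem toN_coe (L : IntermediateField k Ω) (hL : ∀ a ∈ L, a ∈ N) (a : L) :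
    ((toN N L hL a : N) : Ω) = a := rfl

/-- The constants in `L`. -/
def kS (L : IntermediateField k Ω) : Subring L := (algebraMap k L).range

/-- The intersection of the ring with `L`. -/
def CS (A : Subalgebra k Ω) (L : IntermediateField k Ω) : Subring L :=
  A.toSubring.comap (algebraMap L Ω)

theorem mem_CS {A : Subalgebra k Ω} {L : IntermediateField k Ω} {a : L} :
    a ∈ CS A L ↔ (a : Ω) ∈ A := Iff.rfl

/-- The maximal ideal. -/
def mS (v : RVal Ω) (A : Subalgebra k Ω) (L : IntermediateField k Ω) : Set L :=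
  {a | (a : Ω) ∈ A ∧ VPos v (a : Ω)}

/-- `w ∘ σ` on `L ≤ N`. -/
noncomputable def WS (w : RVal Ω) (L : IntermediateField k Ω) (hL : ∀ a ∈ L, a ∈ N) (σ : N ≃ₐ[K] N) :
    OVal ℝ L := TAO.rcomap (toN N L hL) (wσ w σ)

theorem WS_apply (w : RVal Ω) (L : IntermediateField k Ω) (hL : ∀ a ∈ L, a ∈ N)
    (σ : N ≃ₐ[K] N) (a : L) : WS w L hL σ a = w (σ ⟨a, hL a a.2⟩ : N) := rfl

theorem fixO_le_N (H : Subgroup (N ≃ₐ[K] N)) : ∀ a ∈ fixO K N H, a ∈ N := by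
  intro a ha
  obtain ⟨n, rfl, -⟩ := (mem_fixO K N H a).1 ha
  exact n.2

theorem base_mem_fixO {R : Subalgebra k Ω} (hR : ∀ f ∈ R, f ∈ K) (H : Subgroup (N ≃ₐ[K] N))
    {f : Ω} (hf : f ∈ K) : f ∈ fixO K N H :=
  (mem_fixO K N H f).2 ⟨algebraMap K N ⟨f, hf⟩, rfl, fun σ _ => σ.commutes _⟩

/-- The data of the instance: `B` the frame of `K`, `B₁` the frame with the ring `RD`, `w` the
content, `u` a basis of `Γ`. -/
structure ZD (p : ℕ) {r : ℕ} (n : ℕ) (B B₁ : FR k v D) (hR : NRing v K B.R)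
    (N : IntermediateField K Ω) (H : Subgroup (N ≃ₐ[K] N)) (w : RVal Ω) (u : Fin r → ℝ) :
    Prop where
  ctx : TA.CtxR k v n r
  rpos : 0 < r
  hn : n = r + D
  idx : H.relIndex (DP v B.R N hR.frac.1) < p
  same : B.Same B₁
  ring : B₁.R = RD v B.R N hR.frac.1
  cont : ContP p B₁ (FD v B.R N hR.frac.1) w
  basis : GoodBasis B.Γ ∅ u
  coord : ∀ a, (∃ M : ℕ, (∏ i, B.χ (u i)) ^ M * a ∈ AH v B.R (DP v B.R N hR.frac.1 ⊓ H)) →
    ∃ c : (Fin r → Fin p) × (Fin D → Fin p) → Ω,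
      (∀ μ, ∃ M : ℕ, (∏ i, B.χ (u i)) ^ M * c μ ∈ AH v B.R (DP v B.R N hR.frac.1 ⊓ H)) ∧
      a = ∑ μ, mm (fun i => B.χ (u i)) B.y μ * c μ ^ p

variable {p n r : ℕ} {B B₁ : FR k v D} {hR : NRing v K B.R} {H : Subgroup (N ≃ₐ[K] N)}
  {w : RVal Ω} {u : Fin r → ℝ}

theorem ZD.y_mem_K (B : FR k v D) (hR : NRing v K B.R) (H : Subgroup (N ≃ₐ[K] N)) (j : Fin D) :
    B.y j ∈ fixO K N H := base_mem_fixO hR.frac.1 H (hR.frac.1 _ (B.y_mem j))

theorem ZD.x_mem_K (h : ZD p n B B₁ hR N H w u) (i : Fin r) :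
    B.χ (u i) ∈ fixO K N (DP v B.R N hR.frac.1 ⊓ H) :=
  base_mem_fixO hR.frac.1 _ (hR.frac.1 _ (B.χ_mem _ (h.basis.mem i) (h.basis.pos i).le))

end Pool.Agent.ALL_h18
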