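import Pool.Agent.Lib.ALL_h18.PB
import Pool.Agent.Lib.TAO.Basic

/-!
# The tame toric theorem, abstract form

`C` is a local subring of the field `K` with parameters `x` (monomial) and `y`, cut out of
`C[1/x]` by finitely many valuations `W l` for which `p`-coordinates compute the value. Then the
maximal ideal is `(y) C + {W > 0}`, all `W l` are equal, and every value is the value of a unit
of `C[1/x]`.
-/

set_option autoImplicit false

namespace Pool.Agent.ALL_h18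

open Pool.Agent.TAO (OVal VPos)

universe u w

section

variable {𝕂 : Type w} [Field 𝕂] [LinearOrder 𝕂] [IsStrictOrderedRing 𝕂] {K : Type u} [Field K]

/-- `a` is an element of `C[1/x]`. -/
def InX {r : ℕ} (C : Subring K) (x : Fin r → K) (a : K) : Prop :=
  ∃ M : ℕ, (∏ i, x i) ^ M * a ∈ C

/-- The elements of `(y)^j C`. -/
def YP {D : ℕ} (C : Subring K) (y : Fin D → K) (j : ℕ) : AddSubgroup K :=
  AddSubgroup.closure {e | ∃ β : Fin D → ℕ, ∑ i, β i = j ∧ ∃ b ∈ C, e = ymon y β * b}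

/-- The setting, without the separatedness. `𝔪` is the maximal ideal of `C`. -/
structure TS0 (p : ℕ) (k C : Subring K) (𝔪 : Set K) {r D : ℕ} (x : Fin r → K) (y : Fin D → K)
    (u : Fin r → 𝕂) {ι : Type*} (W : ι → OVal 𝕂 K) : Prop where
  k_le : k ≤ C
  k_inv : ∀ c ∈ k, c⁻¹ ∈ k
  k_root : ∀ c ∈ k, ∃ d ∈ k, d ^ p = c
  m_sub : ∀ a ∈ 𝔪, a ∈ C
  m_add : ∀ a ∈ 𝔪, ∀ b ∈ 𝔪, a + b ∈ 𝔪
  m_mul : ∀ a ∈ C, ∀ b ∈ 𝔪, a * b ∈ 𝔪
  m_one : (1 : K) ∉ 𝔪
  unit : ∀ a ∈ C, a ∉ 𝔪 → a⁻¹ ∈ C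
  res : ∀ a ∈ C, ∃ c ∈ k, a - c ∈ 𝔪
  frac : ∀ a : K, ∃ b ∈ C, ∃ c ∈ C, c ≠ 0 ∧ a = b / c
  x_ne : ∀ i, x i ≠ 0
  x_mem : ∀ i, x i ∈ C
  x_val : ∀ l i, W l (x i) = u i
  y_mem : ∀ i, y i ∈ 𝔪
  W_ge : ∀ l, ∀ a ∈ C, (W l).Ge 0 a
  W_m : ∀ l, ∀ a ∈ C, VPos (W l) a → a ∈ 𝔪
  /-- `C = C[1/x] ∩ {W ≥ 0}` -/
  cut : ∀ a, InX C x a → (∀ l, (W l).Ge 0 a) → a ∈ C
  /-- `p`-coordinates -/
  coord : ∀ a, InX C x a → ∃ c : (Fin r → Fin p) → (Fin D → Fin p) → K,
    (∀ i α, InX C x (c i α)) ∧ a = ∑ i, ∑ α, ymon x (nv i) * ymon y (nv α) * c i α ^ p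
  /-- `p`-coordinates compute the value -/
  val : ∀ (l : ι) (τ : 𝕂) (c : (Fin r → Fin p) → (Fin D → Fin p) → K),
    (W l).Ge τ (∑ i, ∑ α, ymon x (nv i) * ymon y (nv α) * c i α ^ p) →
    ∀ i α, c i α ≠ 0 → τ ≤ ∑ j, (nv i j : 𝕂) * u j + p * W l (c i α)
  /-- the values of the `x_i` are independent modulo `p` -/
  indep : ∀ (l : ι) (c : K) (i : Fin r → ℕ), c ≠ 0 → ∑ j, (i j : 𝕂) * u j = p * W l c →
    ∀ j, p ∣ i j
  /-- the value group is torsion prime to `p` over the values of the monomials -/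
  tors : ∃ M : ℕ, 0 < M ∧ M.Coprime p ∧ ∀ (l : ι) (a : K), a ≠ 0 →
    ∃ n : Fin r → ℤ, (M : 𝕂) * W l a = ∑ j, (n j : 𝕂) * u j
  /-- elements of `𝔪` are nilpotent modulo `(y) C + {W > 0}` -/
  nil : ∀ a ∈ 𝔪, ∃ n : ℕ, ∃ b : Fin D → K, (∀ i, b i ∈ C) ∧
    ∀ l, VPos (W l) (a ^ n - ∑ i, y i * b i)

/-- The setting. `𝔪` is the maximal ideal of `C`. -/
structure TS (p : ℕ) (k C : Subring K) (𝔪 : Set K) {r D : ℕ} (x : Fin r → K) (y : Fin D → K)
    (u : Fin r → 𝕂) {ι : Type*} (W : ι → OVal 𝕂 K) : Prop extends TS0 p k C 𝔪 x y u W where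
  /-- separatedness of `C / {W l > 0}` -/
  krull : ∀ l, ∀ a ∈ C, (∀ j : ℕ, ∃ e ∈ YP C y j, VPos (W l) (a - e)) → VPos (W l) a

end

section

variable {𝕂 : Type w} [Field 𝕂] [LinearOrder 𝕂] [IsStrictOrderedRing 𝕂] {K : Type u} [Field K]
  {p : ℕ} {k C : Subring K} {𝔪 : Set K} {r D : ℕ} {x : Fin r → K} {y : Fin D → K} {u : Fin r → 𝕂}
  {ι : Type*} {W : ι → OVal 𝕂 K}

theorem InX.of_mem {a : K} (ha : a ∈ C) : InX C x a := ⟨0, by simpa using ha⟩

theorem InX.mul {a b : K} (ha : InX C x a) (hb : InX C x b) :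
    InX C x (a * b) := by
  obtain ⟨M, hM⟩ := ha
  obtain ⟨N, hN⟩ := hb
  refine ⟨M + N, ?_⟩
  have : (∏ i, x i) ^ (M + N) * (a * b) = ((∏ i, x i) ^ M * a) * ((∏ i, x i) ^ N * b) := by ring
  rw [this]
  exact C.mul_mem hM hN

theorem InX.add (hx : ∀ i, x i ∈ C) {a b : K} (ha : InX C x a) (hb : InX C x b) :
    InX C x (a + b) := by
  obtain ⟨M, hM⟩ := ha
  obtain ⟨N, hN⟩ := hb
  have hX : (∏ i, x i) ∈ C := C.prod_mem fun i _ => hx i
  refine ⟨M + N, ?_⟩
  have : (∏ i, x i) ^ (M + N) * (a + b) = (∏ i, x i) ^ N * ((∏ i, x i) ^ M * a) +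
      (∏ i, x i) ^ M * ((∏ i, x i) ^ N * b) := by ring
  rw [this]
  exact C.add_mem (C.mul_mem (C.pow_mem hX _) hM) (C.mul_mem (C.pow_mem hX _) hN)

theorem InX.pow {a : K} (ha : InX C x a) (n : ℕ) : InX C x (a ^ n) := by
  induction n with
  | zero => rw [pow_zero]; exact InX.of_mem C.one_mem
  | succ n ih => rw [pow_succ]; exact ih.mul ha

theorem InX.sum (hx : ∀ i, x i ∈ C) {τ : Type*} (s : Finset τ) (f : τ → K)
    (hf : ∀ t ∈ s, InX C x (f t)) : InX C x (∑ t ∈ s, f t) := by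
  classical
  induction s using Finset.induction_on with
  | empty => rw [Finset.sum_empty]; exact InX.of_mem C.zero_mem
  | insert a s ha ih =>
    rw [Finset.sum_insert ha]
    exact (hf a (Finset.mem_insert_self a s)).add hx
      (ih fun i hi => hf i (Finset.mem_insert_of_mem hi))

/-- Laurent monomials. -/
def xz (x : Fin r → K) (n : Fin r → ℤ) : K := ∏ j, x j ^ n j

theorem xz_ne (hx : ∀ i, x i ≠ 0) (n : Fin r → ℤ) : xz x n ≠ 0 :=
  Finset.prod_ne_zero_iff.2 fun i _ => zpow_ne_zero _ (hx i)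

theorem xz_neg (n : Fin r → ℤ) : xz x (-n) = (xz x n)⁻¹ := by
  simp [xz, Finset.prod_inv_distrib]

theorem InX.xz (hx0 : ∀ i, x i ≠ 0) (hx : ∀ i, x i ∈ C) (n : Fin r → ℤ) : InX C x (xz x n) := by
  classical
  obtain ⟨M, hM⟩ : ∃ M : ℕ, ∀ i, 0 ≤ (M : ℤ) + n i := by
    refine ⟨∑ i, (n i).natAbs, fun i => ?_⟩
    have h1 : (n i).natAbs ≤ ∑ i, (n i).natAbs :=
      Finset.single_le_sum (f := fun i => (n i).natAbs) (fun _ _ => Nat.zero_le _)
        (Finset.mem_univ i)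
    omega
  refine ⟨M, ?_⟩
  have : (∏ i, x i) ^ M * ALL_h18.xz x n = ∏ i, x i ^ ((M : ℤ) + n i) := by
    unfold ALL_h18.xz
    rw [← Finset.prod_pow, ← Finset.prod_mul_distrib]
    exact Finset.prod_congr rfl fun i _ => by rw [zpow_add₀ (hx0 i), zpow_natCast]
  rw [this]
  refine C.prod_mem fun i _ => ?_
  obtain ⟨m, hm⟩ := Int.eq_ofNat_of_zero_le (hM i)
  rw [hm, zpow_natCast]
  exact C.pow_mem (hx i) _

theorem nv_zero {p n : ℕ} (hp : 0 < p) : nv (fun _ : Fin n => (⟨0, hp⟩ : Fin p)) = 0 := rfl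

namespace TS0

variable (h : TS0 p k C 𝔪 x y u W)
include h

theorem xz_val (l : ι) (n : Fin r → ℤ) : W l (xz x n) = ∑ j, (n j : 𝕂) * u j := by
  unfold xz
  rw [(W l).map_prod _ _ fun i _ => zpow_ne_zero _ (h.x_ne i)]
  exact Finset.sum_congr rfl fun i _ => by rw [(W l).map_zpow (h.x_ne i), h.x_val]

theorem yC (i : Fin D) : y i ∈ C := h.m_sub _ (h.y_mem i)

theorem ymon_mem (β : Fin D → ℕ) : ymon y β ∈ C := C.prod_mem fun i _ => C.pow_mem (h.yC i) _

theorem xmon_ne (β : Fin r → ℕ) : ymon x β ≠ 0 :=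
  Finset.prod_ne_zero_iff.2 fun i _ => pow_ne_zero _ (h.x_ne i)

theorem xmon_val (l : ι) (β : Fin r → ℕ) : W l (ymon x β) = ∑ j, (β j : 𝕂) * u j := by
  unfold ymon
  rw [(W l).map_prod _ _ fun i _ => pow_ne_zero _ (h.x_ne i)]
  exact Finset.sum_congr rfl fun i _ => by rw [(W l).map_pow (h.x_ne i), h.x_val]

theorem W_Ge_ymon (l : ι) (β : Fin D → ℕ) : (W l).Ge 0 (ymon y β) := h.W_ge l _ (h.ymon_mem β)

/-- Positive elements. -/
def P (l : ι) : Ideal C where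
  carrier := {a | VPos (W l) (a : K)}
  add_mem' := fun ha hb => VPos.add ha hb
  zero_mem' := VPos.zero
  smul_mem' := fun c a ha => by
    change VPos (W l) ((c : K) * (a : K))
    exact VPos.mul' (h.W_ge l _ c.2) ha

theorem mem_P {l : ι} {a : C} : a ∈ h.P l ↔ VPos (W l) (a : K) := Iff.rfl

/-- Elements which are positive for all `W l`. -/
def J : Ideal C := ⨅ l, h.P l

theorem mem_J {a : C} : a ∈ h.J ↔ ∀ l, VPos (W l) (a : K) := by
  unfold J
  rw [Ideal.mem_iInf]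
  rfl

/-- The maximal ideal. -/
def mI : Ideal C where
  carrier := {a | (a : K) ∈ 𝔪}
  add_mem' := fun ha hb => h.m_add _ ha _ hb
  zero_mem' := by
    change (0 : K) ∈ 𝔪
    by_contra h0
    obtain ⟨c, hc, h1⟩ := h.res 0 C.zero_mem
    have := h.m_mul 0 C.zero_mem _ h1
    rw [zero_mul] at this
    exact h0 this
  smul_mem' := fun c a ha => h.m_mul _ c.2 _ ha

theorem mem_mI {a : C} : a ∈ h.mI ↔ (a : K) ∈ 𝔪 := Iff.rfl

theorem P_le (l : ι) : h.P l ≤ h.mI := fun a ha => h.W_m l _ a.2 ha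

theorem J_le_P (l : ι) : h.J ≤ h.P l := iInf_le _ l

/-- The parameters in `C`. -/
def yc (i : Fin D) : C := ⟨y i, h.yC i⟩

theorem coe_ymon (β : Fin D → ℕ) : ((ymon h.yc β : C) : K) = ymon y β := by
  have := map_ymon C.subtype h.yc β
  exact this

variable [hpf : Fact p.Prime] [CharP K p]

omit [CharP K p] in
/-- The terms with `i ≠ 0` are positive. -/
theorem term_gt {a₀ : K} (ha₀ : a₀ ≠ 0) (l : ι) {c : K} {i : Fin r → Fin p}
    (hi : i ≠ fun _ => ⟨0, hpf.out.pos⟩)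
    (hge : c ≠ 0 → p * W l a₀ ≤ ∑ j, (nv i j : 𝕂) * u j + p * W l c) (α : Fin D → ℕ) :
    ymon x (nv i) * ymon y α * c ^ p ≠ 0 →
      p * W l a₀ < W l (ymon x (nv i) * ymon y α * c ^ p) := by
  intro h0
  have hc : c ≠ 0 := by
    rintro rfl
    rw [zero_pow hpf.out.ne_zero, mul_zero] at h0
    exact h0 rfl
  have hy : ymon y α ≠ 0 := right_ne_zero_of_mul (left_ne_zero_of_mul h0)
  rw [(W l).map_mul (left_ne_zero_of_mul h0) (pow_ne_zero _ hc),
    (W l).map_mul (h.xmon_ne _) hy, (W l).map_pow hc, h.xmon_val]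
  have h1 := hge hc
  have h2 : 0 ≤ W l (ymon y α) := h.W_Ge_ymon l α hy
  rcases h1.lt_or_eq with h3 | h3
  · linarith
  · exfalso
    have h4 : ∑ j, (nv i j : 𝕂) * u j = p * W l (a₀ / c) := by
      rw [(W l).map_div ha₀ hc]
      linarith
    have h5 := h.indep l (a₀ / c) (nv i) (div_ne_zero ha₀ hc) h4
    apply hi
    funext j
    apply Fin.ext
    have h6 := h5 j
    have h7 : nv i j < p := (i j).2
    exact Nat.eq_zero_of_dvd_of_lt h6 h7

omit [CharP K p] in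
/-- The leading part of an element. -/
theorem split {a a₀ : K} (ha : InX C x a) (ha₀ : a₀ ≠ 0)
    (hge : ∀ l, (W l).Ge (p * W l a₀) a) :
    ∃ c : (Fin D → Fin p) → K, (∀ α, InX C x (c α)) ∧ (∀ l α, (W l).Ge (W l a₀) (c α)) ∧
      ∃ e, InX C x e ∧ (∀ l, e ≠ 0 → p * W l a₀ < W l e) ∧
        a = ∑ α, ymon y (nv α) * c α ^ p + e := by
  classical
  have hp : (0 : 𝕂) < p := by exact_mod_cast hpf.out.pos
  obtain ⟨c, hc, hac⟩ := h.coord a ha
  set z : Fin r → Fin p := fun _ => ⟨0, hpf.out.pos⟩ with hz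
  have hv : ∀ l i α, c i α ≠ 0 → p * W l a₀ ≤ ∑ j, (nv i j : 𝕂) * u j + p * W l (c i α) :=
    fun l => h.val l _ c (by rw [← hac]; exact hge l)
  refine ⟨c z, hc z, fun l α h0 => ?_, ∑ i ∈ Finset.univ.erase z, ∑ α,
    ymon x (nv i) * ymon y (nv α) * c i α ^ p, ?_, ?_, ?_⟩
  · have h1 := hv l z α h0
    have h2 : ∑ j, (nv z j : 𝕂) * u j = 0 := by
      refine Finset.sum_eq_zero fun j _ => ?_
      simp [hz, nv]
    rw [h2, zero_add] at h1
    exact le_of_mul_le_mul_left h1 hp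
  · refine InX.sum h.x_mem _ _ fun i _ => InX.sum h.x_mem _ _ fun α _ => ?_
    exact ((InX.of_mem (C.prod_mem fun j _ => C.pow_mem (h.x_mem j) _)).mul
      (InX.of_mem (h.ymon_mem _))).mul ((hc i α).pow p)
  · intro l h0
    have key : ∀ (s : Finset (Fin r → Fin p)), z ∉ s →
        ∑ i ∈ s, ∑ α, ymon x (nv i) * ymon y (nv α) * c i α ^ p ≠ 0 →
        p * W l a₀ < W l (∑ i ∈ s, ∑ α, ymon x (nv i) * ymon y (nv α) * c i α ^ p) := by
      intro s hs
      have gt_sum : ∀ {τ : Type} (T : Finset τ) (f : τ → K),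
          (∀ t ∈ T, f t ≠ 0 → p * W l a₀ < W l (f t)) →
          ∑ t ∈ T, f t ≠ 0 → p * W l a₀ < W l (∑ t ∈ T, f t) := by
        intro τ T f
        induction T using Finset.induction_on with
        | empty => intro _ h; simp at h
        | insert t T ht ih =>
          intro hf hne
          rw [Finset.sum_insert ht] at hne ⊢
          have h1 := hf t (Finset.mem_insert_self t T)
          have h2 := ih fun i hi => hf i (Finset.mem_insert_of_mem hi)
          by_cases h3 : f t = 0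
          · rw [h3, zero_add] at hne ⊢; exact h2 hne
          by_cases h4 : ∑ i ∈ T, f i = 0
          · rw [h4, add_zero] at hne ⊢; exact h1 hne
          exact lt_of_lt_of_le (lt_min (h1 h3) (h2 h4)) ((W l).map_add h3 h4 hne)
      refine gt_sum s _ fun i hi => gt_sum Finset.univ _ fun α _ => ?_
      exact h.term_gt ha₀ l (fun h1 => hs (by rw [hz, ← h1]; exact hi)) (hv l i α) (nv α)
    exact key _ (Finset.notMem_erase z _) h0
  · rw [hac, ← Finset.add_sum_erase Finset.univ _ (Finset.mem_univ z)]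
    congr 1
    refine Finset.sum_congr rfl fun α _ => ?_
    have : ymon x (nv z) = 1 := by
      have h1 : nv z = 0 := by rw [hz]; exact nv_zero hpf.out.pos
      rw [h1, ymon_zero]
    rw [this, one_mul]

omit [CharP K p] in
/-- Uniqueness modulo positive elements. -/
theorem uniq {l : ι} {c : (Fin D → Fin p) → K}
    (hc : VPos (W l) (∑ α, ymon y (nv α) * c α ^ p)) (α : Fin D → Fin p) : VPos (W l) (c α) := by
  classical
  have hp : (0 : 𝕂) < p := by exact_mod_cast hpf.out.pos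
  intro h0
  set s := ∑ α, ymon y (nv α) * c α ^ p with hs
  set z : Fin r → Fin p := fun _ => ⟨0, hpf.out.pos⟩ with hz
  obtain ⟨τ, hτ, hge⟩ : ∃ τ : 𝕂, 0 < τ ∧ (W l).Ge τ s := by
    by_cases h1 : s = 0
    · exact ⟨1, one_pos, by rw [h1]; exact OVal.Ge.zero⟩
    · exact ⟨W l s, hc h1, OVal.ge_self s⟩
  have h2 : ∑ i : Fin r → Fin p, ∑ α, ymon x (nv i) * ymon y (nv α) *
      (if i = z then c α else 0) ^ p = s := by
    rw [Finset.sum_eq_single z]
    · rw [hs]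
      refine Finset.sum_congr rfl fun α _ => ?_
      have h1 : nv z = 0 := by rw [hz]; exact nv_zero hpf.out.pos
      rw [if_pos rfl, h1, ymon_zero, one_mul]
    · intro i _ hi
      refine Finset.sum_eq_zero fun α _ => ?_
      rw [if_neg hi, zero_pow hpf.out.ne_zero, mul_zero]
    · intro h; exact absurd (Finset.mem_univ _) h
  have h3 := h.val l τ (fun i α => if i = z then c α else 0) (by rw [h2]; exact hge) z α
    (by rw [if_pos rfl]; exact h0)
  rw [if_pos rfl] at h3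
  have h4 : ∑ j, (nv z j : 𝕂) * u j = 0 := by
    refine Finset.sum_eq_zero fun j _ => ?_
    simp [hz, nv]
  rw [h4, zero_add] at h3
  by_contra hcon
  push Not at hcon
  have := mul_nonpos_of_nonneg_of_nonpos hp.le hcon
  linarith

omit [CharP K p] in
/-- `p`-coordinates modulo `J`. -/
theorem split0 (a : C) : ∃ c : (Fin D → Fin p) → C,
    a - ∑ α, ymon h.yc (nv α) * c α ^ p ∈ h.J := by
  obtain ⟨c, hc, hc0, e, he, he0, hac⟩ := h.split (a := a) (a₀ := 1) (InX.of_mem a.2) one_ne_zero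
    (fun l => by rw [(W l).map_one, mul_zero]; exact h.W_ge l _ a.2)
  have hcC : ∀ α, c α ∈ C := fun α => h.cut _ (hc α) fun l => by
    have := hc0 l α
    rwa [(W l).map_one] at this
  refine ⟨fun α => ⟨c α, hcC α⟩, ?_⟩
  rw [h.mem_J]
  intro l
  have : ((a - ∑ α, ymon h.yc (nv α) * (⟨c α, hcC α⟩ : C) ^ p : C) : K) = e := by
    push_cast
    simp only [h.coe_ymon]
    rw [hac]; ring
  rw [this]
  intro h0
  have := he0 l h0
  rwa [(W l).map_one, mul_zero] at this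

theorem isPB_quot (Q : Ideal C) (hJ : h.J ≤ Q)
    (hu : ∀ c : (Fin D → Fin p) → C, ∑ α, ymon h.yc (nv α) * c α ^ p ∈ Q → ∀ α, c α ∈ Q) :
    IsPB p (fun i => Ideal.Quotient.mk Q (h.yc i)) := by
  constructor
  · intro a
    obtain ⟨a, rfl⟩ := Ideal.Quotient.mk_surjective a
    obtain ⟨c, hc⟩ := h.split0 a
    refine ⟨fun α => Ideal.Quotient.mk Q (c α), ?_⟩
    have h1 := Ideal.Quotient.eq.2 (hJ hc)
    rw [h1, map_sum]
    exact Finset.sum_congr rfl fun α _ => by rw [map_mul, map_pow, map_ymon]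
  · intro c hc
    have hs := fun α => Ideal.Quotient.mk_surjective (I := Q) (c α)
    choose d hd using hs
    intro α
    rw [← hd α, Ideal.Quotient.eq_zero_iff_mem]
    refine hu d ?_ α
    rw [← Ideal.Quotient.eq_zero_iff_mem, map_sum, ← hc]
    exact Finset.sum_congr rfl fun α _ => by rw [map_mul, map_pow, map_ymon, hd]

theorem isPB_P (l : ι) : IsPB p (fun i => Ideal.Quotient.mk (h.P l) (h.yc i)) := by
  refine h.isPB_quot _ (h.J_le_P l) fun c hc α => ?_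
  rw [h.mem_P] at hc ⊢
  push_cast at hc
  simp only [h.coe_ymon] at hc
  exact h.uniq hc α

theorem isPB_J : IsPB p (fun i => Ideal.Quotient.mk h.J (h.yc i)) := by
  refine h.isPB_quot _ le_rfl fun c hc α => ?_
  rw [h.mem_J] at hc ⊢
  intro l
  have := hc l
  push_cast at this
  simp only [h.coe_ymon] at this
  exact h.uniq this α

theorem charP_quot (Q : Ideal C) (hQ : Q ≤ h.mI) : CharP (C ⧸ Q) p := by
  have hne : Q ≠ ⊤ := by
    rintro rfl
    exact h.m_one (hQ (x := 1) Submodule.mem_top)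
  have : Nontrivial (C ⧸ Q) := Ideal.Quotient.nontrivial_iff.2 hne
  refine (CharP.charP_iff_prime_eq_zero hpf.out).2 ?_
  have h1 : (p : C) = 0 := by
    apply Subtype.ext
    push_cast
    exact CharP.cast_eq_zero K p
  have h2 : Ideal.Quotient.mk Q (p : C) = 0 := by rw [h1, map_zero]
  rwa [map_natCast] at h2

theorem Iy_eq_map (Q : Ideal C) : Iy (fun i => Ideal.Quotient.mk Q (h.yc i)) =
    Ideal.map (Ideal.Quotient.mk Q) (Iy h.yc) := by
  unfold Iy
  rw [Ideal.map_span, ← Set.range_comp]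
  rfl

theorem Iy_le : Iy h.yc ≤ h.mI := by
  unfold Iy
  rw [Ideal.span_le]
  rintro _ ⟨i, rfl⟩
  exact h.y_mem i

theorem Iy_ne_top (Q : Ideal C) (hQ : Q ≤ h.mI) :
    Iy (fun i => Ideal.Quotient.mk Q (h.yc i)) ≠ ⊤ := by
  rw [h.Iy_eq_map]
  intro htop
  have h1 : (1 : C) ∈ Iy h.yc ⊔ Q := by
    have : Ideal.Quotient.mk Q 1 ∈ Ideal.map (Ideal.Quotient.mk Q) (Iy h.yc) := by
      rw [htop]; exact Submodule.mem_top
    rw [Ideal.mem_quotient_iff_mem_sup] at this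
    exact this
  exact h.m_one (sup_le h.Iy_le hQ h1)

theorem J_le [Nonempty ι] : h.J ≤ h.mI := (h.J_le_P (Classical.arbitrary ι)).trans (h.P_le _)

/-- (c1) The maximal ideal is `(y) C + J`. -/
theorem mI_eq [Nonempty ι] : h.mI = Iy h.yc ⊔ h.J := by
  apply le_antisymm
  · intro a ha
    have hPB := h.isPB_J
    have := h.charP_quot h.J h.J_le
    · obtain ⟨n, b, hb, hn⟩ := h.nil _ ha
      rw [← Ideal.mem_quotient_iff_mem_sup, ← h.Iy_eq_map]
      refine mem_of_pow_pow_mem hPB n ?_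
      rw [← map_pow, h.Iy_eq_map, Ideal.mem_quotient_iff_mem_sup]
      have h1 : a ^ n - ∑ i, h.yc i * (⟨b i, hb i⟩ : C) ∈ h.J := by
        rw [h.mem_J]
        intro l
        have := hn l
        push_cast
        exact this
      have h2 : a ^ n = ∑ i, h.yc i * (⟨b i, hb i⟩ : C) +
          (a ^ n - ∑ i, h.yc i * (⟨b i, hb i⟩ : C)) := by ring
      rw [h2]
      exact Submodule.add_mem_sup (Ideal.sum_mem _ fun i _ =>
        Ideal.mul_mem_right _ _ (ALL_h18.y_mem _ i)) h1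
  · exact sup_le h.Iy_le h.J_le

end TS0

end

end Pool.Agent.ALL_h18
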