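import Mathlib

/-!
# Rings with `p`-coordinates

A ring `S` of characteristic `p` with elements `y_1, .., y_D` such that every element is uniquely
`∑ y^α c_α ^ p` (`0 ≤ α_i < p`): the `y_i` are analytically independent.
-/

set_option autoImplicit false

namespace Pool.Agent.ALL_h18

open Finset

section PB

variable {S : Type*} [CommRing S] {p D : ℕ}

/-- The monomial `y^β`. -/
def ymon (y : Fin D → S) (β : Fin D → ℕ) : S := ∏ i, y i ^ β i

theorem ymon_add (y : Fin D → S) (β γ : Fin D → ℕ) :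
    ymon y (β + γ) = ymon y β * ymon y γ := by
  simp only [ymon, Pi.add_apply, pow_add, Finset.prod_mul_distrib]

theorem ymon_zero (y : Fin D → S) : ymon y 0 = 1 := by simp [ymon]

theorem ymon_single (y : Fin D → S) (i : Fin D) : ymon y (Pi.single i 1) = y i := by
  classical
  unfold ymon
  rw [Finset.prod_eq_single i]
  · simp
  · intro b _ hb
    simp [hb]
  · intro h; exact absurd (Finset.mem_univ i) h

theorem ymon_smul (y : Fin D → S) (β : Fin D → ℕ) (q : ℕ) :
    ymon y (q • β) = ymon y β ^ q := by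
  unfold ymon
  rw [← Finset.prod_pow]
  exact Finset.prod_congr rfl fun i _ => by
    rw [Pi.smul_apply, smul_eq_mul, mul_comm, pow_mul]

theorem map_ymon {S' : Type*} [CommRing S'] (φ : S →+* S') (y : Fin D → S) (β : Fin D → ℕ) :
    φ (ymon y β) = ymon (fun i => φ (y i)) β := by
  simp [ymon, map_prod, map_pow]

/-- The exponents of a reduced multi-index. -/
def nv (α : Fin D → Fin p) : Fin D → ℕ := fun i => (α i : ℕ)

/-- Existence and uniqueness of the `p`-coordinates. -/
structure IsPB (p : ℕ) (y : Fin D → S) : Prop where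
  ex : ∀ a : S, ∃ c : (Fin D → Fin p) → S, a = ∑ α, ymon y (nv α) * c α ^ p
  uniq : ∀ c : (Fin D → Fin p) → S, ∑ α, ymon y (nv α) * c α ^ p = 0 → ∀ α, c α = 0

/-- The exponent `⌈(j - s) / p⌉`. -/
def ee (p j s : ℕ) : ℕ := (j - s + (p - 1)) / p

theorem ee_succ_succ (p j s : ℕ) : ee p (j + 1) (s + 1) = ee p j s := by
  unfold ee; rw [Nat.add_sub_add_right]

theorem ee_wrap (hp : 2 ≤ p) (j s : ℕ) (hs : p - 1 ≤ s) :
    ee p (j + 1) (s - (p - 1)) ≤ ee p j s + 1 := by
  unfold ee
  rcases le_total s j with h | h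
  · have h1 : j + 1 - (s - (p - 1)) + (p - 1) = (j - s + (p - 1)) + p := by omega
    rw [h1, Nat.add_div_right _ (by omega)]
  · have h1 : j + 1 - (s - (p - 1)) + (p - 1) < 2 * p := by omega
    have h2 : (j + 1 - (s - (p - 1)) + (p - 1)) / p < 2 := by
      rw [Nat.div_lt_iff_lt_mul (by omega)]; omega
    exact (Nat.lt_succ_iff.1 h2).trans (Nat.le_add_left _ _)

theorem ee_zero (hp : 2 ≤ p) (s : ℕ) : ee p 0 s = 0 := by
  unfold ee
  rw [Nat.zero_sub, zero_add, Nat.div_eq_of_lt (by omega)]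

theorem ee_one (hp : 2 ≤ p) : ee p 1 0 = 1 := by
  unfold ee
  have : 1 - 0 + (p - 1) = p := by omega
  rw [this, Nat.div_self (by omega)]

theorem ee_exact (hp : 2 ≤ p) (s d : ℕ) : ee p (s + p * d + 1) s = d + 1 := by
  unfold ee
  have : s + p * d + 1 - s + (p - 1) = p * (d + 1) := by
    have : p * (d + 1) = p * d + p := by ring
    omega
  rw [this, Nat.mul_div_cancel_left _ (by omega)]

section shift

variable [NeZero p]

/-- The cyclic shift of the `i`-th coordinate. -/
def sh (i : Fin D) : (Fin D → Fin p) ≃ (Fin D → Fin p) :=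
  Equiv.piCongrRight fun l => if l = i then Equiv.addRight 1 else Equiv.refl _

theorem sh_same (i : Fin D) (α : Fin D → Fin p) : sh i α i = α i + 1 := by simp [sh]

theorem sh_ne (i l : Fin D) (h : l ≠ i) (α : Fin D → Fin p) : sh i α l = α l := by simp [sh, h]

theorem val_add_one_of_lt {n : ℕ} [NeZero n] {a : Fin n} (h : (a : ℕ) + 1 < n) :
    ((a + 1 : Fin n) : ℕ) = a + 1 := by
  rw [Fin.val_add]
  have h1 : ((1 : Fin n) : ℕ) = 1 := by
    rw [Fin.val_one']
    exact Nat.mod_eq_of_lt (by omega)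
  rw [h1, Nat.mod_eq_of_lt h]

theorem val_add_one_of_eq {n : ℕ} [NeZero n] (hn : 2 ≤ n) {a : Fin n} (h : (a : ℕ) + 1 = n) :
    ((a + 1 : Fin n) : ℕ) = 0 := by
  rw [Fin.val_add]
  have h1 : ((1 : Fin n) : ℕ) = 1 := by
    rw [Fin.val_one']
    exact Nat.mod_eq_of_lt (by omega)
  rw [h1, h, Nat.mod_self]

theorem ymon_sh_lt (y : Fin D → S) (i : Fin D) (α : Fin D → Fin p) (h : (α i : ℕ) + 1 < p) :
    y i * ymon y (nv α) = ymon y (nv (sh i α)) := by
  classical
  unfold ymon nv
  rw [← Finset.mul_prod_erase univ _ (Finset.mem_univ i),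
    ← Finset.mul_prod_erase univ (fun l => y l ^ ((sh i α l : Fin p) : ℕ)) (Finset.mem_univ i)]
  rw [sh_same, val_add_one_of_lt h, pow_succ]
  have : ∀ l ∈ univ.erase i, y l ^ (α l : ℕ) = y l ^ ((sh i α l : Fin p) : ℕ) := by
    intro l hl
    rw [sh_ne i l (Finset.ne_of_mem_erase hl)]
  rw [Finset.prod_congr rfl this]
  ring

theorem ymon_sh_eq (hp : 2 ≤ p) (y : Fin D → S) (i : Fin D) (α : Fin D → Fin p)
    (h : (α i : ℕ) + 1 = p) :
    y i * ymon y (nv α) = ymon y (nv (sh i α)) * y i ^ p := by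
  classical
  unfold ymon nv
  rw [← Finset.mul_prod_erase univ _ (Finset.mem_univ i),
    ← Finset.mul_prod_erase univ (fun l => y l ^ ((sh i α l : Fin p) : ℕ)) (Finset.mem_univ i)]
  rw [sh_same, val_add_one_of_eq hp h, pow_zero, one_mul]
  have : ∀ l ∈ univ.erase i, y l ^ (α l : ℕ) = y l ^ ((sh i α l : Fin p) : ℕ) := by
    intro l hl
    rw [sh_ne i l (Finset.ne_of_mem_erase hl)]
  rw [Finset.prod_congr rfl this]
  have h2 : y i ^ p = y i * y i ^ (α i : ℕ) := by
    rw [← pow_succ', h]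
  rw [h2]
  ring

theorem sum_sh_lt (i : Fin D) (α : Fin D → Fin p) (h : (α i : ℕ) + 1 < p) :
    ∑ l, nv (sh i α) l = (∑ l, nv α l) + 1 := by
  classical
  unfold nv
  rw [← Finset.add_sum_erase univ _ (Finset.mem_univ i),
    ← Finset.add_sum_erase univ (fun l => ((α l : Fin p) : ℕ)) (Finset.mem_univ i)]
  rw [sh_same, val_add_one_of_lt h]
  have : ∀ l ∈ univ.erase i, ((sh i α l : Fin p) : ℕ) = (α l : ℕ) := by
    intro l hl
    rw [sh_ne i l (Finset.ne_of_mem_erase hl)]
  rw [Finset.sum_congr rfl this]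
  ring

theorem sum_sh_eq (hp : 2 ≤ p) (i : Fin D) (α : Fin D → Fin p) (h : (α i : ℕ) + 1 = p) :
    (∑ l, nv (sh i α) l) + (p - 1) = ∑ l, nv α l := by
  classical
  unfold nv
  rw [← Finset.add_sum_erase univ _ (Finset.mem_univ i),
    ← Finset.add_sum_erase univ (fun l => ((α l : Fin p) : ℕ)) (Finset.mem_univ i)]
  rw [sh_same, val_add_one_of_eq hp h]
  have : ∀ l ∈ univ.erase i, ((sh i α l : Fin p) : ℕ) = (α l : ℕ) := by
    intro l hl
    rw [sh_ne i l (Finset.ne_of_mem_erase hl)]
  rw [Finset.sum_congr rfl this]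
  omega

end shift

variable [hpf : Fact p.Prime] [CharP S p] {y : Fin D → S}

/-- The ideal of the `y_i`. -/
def Iy (y : Fin D → S) : Ideal S := Ideal.span (Set.range y)

theorem y_mem (y : Fin D → S) (i : Fin D) : y i ∈ Iy y := Ideal.subset_span ⟨i, rfl⟩

omit hpf [CharP S p] in
/-- Induction for the powers of the ideal of the `y_i`. -/
theorem pow_induction {j : ℕ} {Q : S → Prop} (h0 : Q 0) (hadd : ∀ a b, Q a → Q b → Q (a + b))
    (hy : ∀ a ∈ Iy y ^ j, ∀ i, Q (a * y i)) : ∀ a ∈ Iy y ^ (j + 1), Q a := by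
  intro a ha
  rw [pow_succ] at ha
  refine Submodule.mul_induction_on ha ?_ hadd
  intro m hm n hn
  have : ∀ n ∈ Iy y, ∀ m ∈ Iy y ^ j, Q (m * n) := by
    intro n hn
    unfold Iy at hn
    induction hn using Submodule.span_induction with
    | mem n hn =>
      obtain ⟨i, rfl⟩ := hn
      exact fun m hm => hy m hm i
    | zero => intro m _; rw [mul_zero]; exact h0
    | add n n' _ _ h1 h2 =>
      intro m hm; rw [mul_add]; exact hadd _ _ (h1 m hm) (h2 m hm)
    | smul s n _ h1 =>
      intro m hm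
      have : m * (s • n) = (s * m) * n := by rw [smul_eq_mul]; ring
      rw [this]
      exact h1 _ (Ideal.mul_mem_left _ s hm)
  exact this n hn m hm

theorem exists_coord (h : IsPB p y) : ∀ (j : ℕ), ∀ a ∈ Iy y ^ j,
    ∃ c : (Fin D → Fin p) → S, a = ∑ α, ymon y (nv α) * c α ^ p ∧
      ∀ α, c α ∈ Iy y ^ ee p j (∑ i, nv α i) := by
  have : NeZero p := ⟨hpf.out.ne_zero⟩
  have hp : 2 ≤ p := hpf.out.two_le
  intro j
  induction j with
  | zero =>
    intro a _
    obtain ⟨c, hc⟩ := h.ex a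
    refine ⟨c, hc, fun α => ?_⟩
    rw [ee_zero hp, pow_zero, Ideal.one_eq_top]
    exact Submodule.mem_top
  | succ j ih =>
    refine pow_induction (y := y) (j := j) ?_ ?_ ?_
    · refine ⟨fun _ => 0, ?_, fun α => Ideal.zero_mem _⟩
      simp [hpf.out.ne_zero]
    · rintro a b ⟨c, hc, hc'⟩ ⟨d, hd, hd'⟩
      refine ⟨fun α => c α + d α, ?_, fun α => Ideal.add_mem _ (hc' α) (hd' α)⟩
      rw [hc, hd, ← Finset.sum_add_distrib]
      exact Finset.sum_congr rfl fun α _ => by rw [add_pow_char]; ring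
    · intro a ha i
      obtain ⟨c, hc, hc'⟩ := ih a ha
      refine ⟨fun α => if ((sh i).symm α i : ℕ) + 1 < p then c ((sh i).symm α)
        else y i * c ((sh i).symm α), ?_, ?_⟩
      · rw [← Equiv.sum_comp (sh i), hc, Finset.sum_mul]
        refine Finset.sum_congr rfl fun α _ => ?_
        simp only [Equiv.symm_apply_apply]
        split_ifs with h1
        · rw [← ymon_sh_lt y i α h1]; ring
        · have h2 : (α i : ℕ) + 1 = p := by have := (α i).2; omega
          rw [mul_pow, ← mul_assoc, ← ymon_sh_eq hp y i α h2]; ring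
      · intro α'
        obtain ⟨α, rfl⟩ := (sh i).surjective α'
        simp only [Equiv.symm_apply_apply]
        split_ifs with h1
        · rw [sum_sh_lt i α h1, ee_succ_succ]; exact hc' α
        · have h2 : (α i : ℕ) + 1 = p := by have := (α i).2; omega
          have h3 := sum_sh_eq hp i α h2
          have h4 : ∑ l, nv (sh i α) l = (∑ l, nv α l) - (p - 1) := by omega
          rw [h4]
          refine Ideal.pow_le_pow_right (ee_wrap hp j _ (by omega)) ?_
          rw [pow_succ, mul_comm (y i)]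
          exact Ideal.mul_mem_mul (hc' α) (y_mem y i)

theorem coord_mem (h : IsPB p y) {j : ℕ} {c : (Fin D → Fin p) → S}
    (hc : ∑ α, ymon y (nv α) * c α ^ p ∈ Iy y ^ j) (α : Fin D → Fin p) :
    c α ∈ Iy y ^ ee p j (∑ i, nv α i) := by
  obtain ⟨d, hd, hd'⟩ := exists_coord h j _ hc
  have h1 : ∑ α, ymon y (nv α) * (c α - d α) ^ p = 0 := by
    rw [← sub_eq_zero.2 hd, ← Finset.sum_sub_distrib]
    exact Finset.sum_congr rfl fun α _ => by rw [sub_pow_char]; ring
  have h2 := h.uniq _ h1 α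
  rw [sub_eq_zero.1 h2]
  exact hd' α

theorem mem_of_pow_mem (h : IsPB p y) {a : S} (ha : a ^ p ∈ Iy y) : a ∈ Iy y := by
  classical
  have : NeZero p := ⟨hpf.out.ne_zero⟩
  have hp : 2 ≤ p := hpf.out.two_le
  have h1 : ∑ α : Fin D → Fin p, ymon y (nv α) * (if α = 0 then a else 0) ^ p ∈ Iy y ^ 1 := by
    rw [Finset.sum_eq_single (0 : Fin D → Fin p)]
    · rw [if_pos rfl]
      have : nv (0 : Fin D → Fin p) = 0 := by ext i; simp [nv]
      rw [this, ymon_zero, one_mul, pow_one]; exact ha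
    · intro b _ hb
      rw [if_neg hb, zero_pow (by omega), mul_zero]
    · intro h; exact absurd (Finset.mem_univ _) h
  have h2 := coord_mem h h1 0
  rw [if_pos rfl] at h2
  have : ∑ i, nv (0 : Fin D → Fin p) i = 0 := by simp [nv]
  rw [this, ee_one hp, pow_one] at h2
  exact h2

theorem mem_of_pow_pow_mem (h : IsPB p y) {a : S} (n : ℕ) (ha : a ^ n ∈ Iy y) : a ∈ Iy y := by
  have hp : 2 ≤ p := hpf.out.two_le
  have key : ∀ s : ℕ, a ^ p ^ s ∈ Iy y → a ∈ Iy y := by
    intro s
    induction s with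
    | zero => intro h1; simpa using h1
    | succ s ih =>
      intro h1
      rw [pow_succ, pow_mul] at h1
      exact ih (mem_of_pow_mem h h1)
  obtain ⟨s, hs⟩ : ∃ s, n ≤ p ^ s := ⟨n, (Nat.lt_pow_self (by omega)).le⟩
  apply key s
  rw [← Nat.sub_add_cancel hs, pow_add]
  exact Ideal.mul_mem_left _ _ ha

/-- Analytic independence. -/
theorem an_indep (h : IsPB p y) (hI : Iy y ≠ ⊤) {k : Set S} (hk : ∀ c ∈ k, c ≠ 0 → IsUnit c)
    (hkp : ∀ c ∈ k, ∃ d ∈ k, d ^ p = c) {τ : Type*} : ∀ (j : ℕ) (T : Finset τ)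
      (β : τ → Fin D → ℕ) (c : τ → S), (∀ t ∈ T, c t ∈ k) → (∀ t ∈ T, ∑ i, β t i = j) →
      Set.InjOn β (T : Set τ) → ∑ t ∈ T, c t * ymon y (β t) ∈ Iy y ^ (j + 1) →
      ∀ t ∈ T, c t = 0 := by
  classical
  have : NeZero p := ⟨hpf.out.ne_zero⟩
  have hp : 2 ≤ p := hpf.out.two_le
  intro j
  induction j using Nat.strong_induction_on with
  | _ j ih =>
  intro T β c hck hβ hinj hsum t ht
  rcases Nat.eq_zero_or_pos j with rfl | hj
  · have hβ0 : ∀ s ∈ T, β s = 0 := by
      intro s hs
      have := hβ s hs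
      rw [Finset.sum_eq_zero_iff] at this
      ext i; exact this i (Finset.mem_univ i)
    have hT : T = {t} := by
      ext s
      rw [Finset.mem_singleton]
      refine ⟨fun hs => hinj hs ht (by rw [hβ0 s hs, hβ0 t ht]), fun hs => hs ▸ ht⟩
    rw [hT, Finset.sum_singleton, hβ0 t ht, ymon_zero, mul_one, zero_add, pow_one] at hsum
    by_contra h0
    exact hI (Ideal.eq_top_of_isUnit_mem _ hsum (hk _ (hck t ht) h0))
  · have hd : ∀ s, ∃ d, s ∈ T → d ∈ k ∧ d ^ p = c s := by
      intro s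
      by_cases hs : s ∈ T
      · obtain ⟨d, h1, h2⟩ := hkp _ (hck s hs)
        exact ⟨d, fun _ => ⟨h1, h2⟩⟩
      · exact ⟨0, fun h => absurd h hs⟩
    choose d hd using hd
    set res : τ → Fin D → Fin p := fun s i => ⟨β s i % p, Nat.mod_lt _ (by omega)⟩ with hres
    set quo : τ → Fin D → ℕ := fun s i => β s i / p with hquo
    have hdec : ∀ s, β s = nv (res s) + p • quo s := by
      intro s; ext i
      simp only [hres, hquo, nv, Pi.add_apply, Pi.smul_apply, smul_eq_mul]
      exact (Nat.mod_add_div _ _).symm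
    set g : (Fin D → Fin p) → S := fun α => ∑ s ∈ T with res s = α, d s * ymon y (quo s) with hg
    have h1 : ∑ s ∈ T, c s * ymon y (β s) = ∑ α, ymon y (nv α) * g α ^ p := by
      rw [← Finset.sum_fiberwise T res]
      refine Finset.sum_congr rfl fun α _ => ?_
      rw [hg]
      simp only
      rw [sum_pow_char, Finset.mul_sum]
      refine Finset.sum_congr rfl fun s hs => ?_
      rw [Finset.mem_filter] at hs
      rw [mul_pow, (hd s hs.1).2, hdec s, ymon_add, ymon_smul, hs.2]
      ring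
    rw [h1] at hsum
    have h2 := coord_mem h hsum (res t)
    have hsz : ∀ s, ∑ i, β s i = ∑ i, nv (res s) i + p * ∑ i, quo s i := by
      intro s
      conv_lhs => rw [hdec s]
      simp only [Pi.add_apply, Pi.smul_apply, smul_eq_mul, Finset.sum_add_distrib,
        Finset.mul_sum]
    have ht2 := hβ t ht
    rw [hsz t] at ht2
    rw [← ht2, ee_exact hp] at h2
    have hlt : ∑ i, quo t i < j := by
      rw [← ht2]
      rcases Nat.eq_zero_or_pos (∑ i, quo t i) with h0 | h0
      · rw [h0] at ht2 ⊢; omega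
      · have h00 := Nat.mul_le_mul_right (∑ i, quo t i) hp
        omega
    have h3 := ih _ hlt (T.filter fun s => res s = res t) quo d ?_ ?_ ?_ h2 t
      (Finset.mem_filter.2 ⟨ht, rfl⟩)
    · rw [← (hd t ht).2, h3, zero_pow (by omega)]
    · intro s hs
      exact (hd s (Finset.mem_filter.1 hs).1).1
    · intro s hs
      rw [Finset.mem_filter] at hs
      have := hβ s hs.1
      rw [hsz s, hs.2, ← ht2] at this
      have h4 : p * ∑ i, quo s i = p * ∑ i, quo t i := by omega
      exact Nat.eq_of_mul_eq_mul_left (by omega) h4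
    · intro s hs s' hs' hq
      rw [Finset.mem_coe, Finset.mem_filter] at hs hs'
      refine hinj hs.1 hs'.1 ?_
      rw [hdec s, hdec s', hs.2, hs'.2, hq]

end PB

section span

variable {S : Type*} [CommRing S] {D : ℕ} {y : Fin D → S} (k : Subring S)

/-- The forms of degree `j` with coefficients in `k`. -/
def Hf (y : Fin D → S) (j : ℕ) : Submodule k S :=
  Submodule.span k (Set.range fun β : {β : Fin D → ℕ // ∑ i, β i = j} => ymon y β.1)

theorem exists_form (hS : ∀ a : S, ∃ c ∈ k, a - c ∈ Iy y) : ∀ (j : ℕ), ∀ a ∈ Iy y ^ j,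
    ∃ h ∈ Hf k y j, a - h ∈ Iy y ^ (j + 1) := by
  intro j
  induction j with
  | zero =>
    intro a _
    obtain ⟨c, hc, h1⟩ := hS a
    refine ⟨c, ?_, by simpa using h1⟩
    have : c = (⟨c, hc⟩ : k) • ymon y (0 : Fin D → ℕ) := by
      rw [ymon_zero]; simp [Subring.smul_def]
    rw [this]
    exact Submodule.smul_mem _ _ (Submodule.subset_span ⟨⟨0, by simp⟩, rfl⟩)
  | succ j ih =>
    refine pow_induction (y := y) (j := j) ?_ ?_ ?_
    · exact ⟨0, Submodule.zero_mem _, by rw [sub_zero]; exact Ideal.zero_mem _⟩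
    · rintro a b ⟨h, hh, h1⟩ ⟨g, hg, h2⟩
      refine ⟨h + g, Submodule.add_mem _ hh hg, ?_⟩
      rw [add_sub_add_comm]
      exact Submodule.add_mem _ h1 h2
    · intro a ha i
      obtain ⟨h, hh, h1⟩ := ih a ha
      refine ⟨h * y i, ?_, ?_⟩
      · clear h1
        unfold Hf at hh
        induction hh using Submodule.span_induction with
        | mem h hh =>
          obtain ⟨β, rfl⟩ := hh
          simp only
          rw [← ymon_single y i, ← ymon_add]
          refine Submodule.subset_span ⟨⟨β.1 + Pi.single i 1, ?_⟩, rfl⟩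
          simp only [Pi.add_apply, Finset.sum_add_distrib, β.2]
          simp
        | zero => rw [zero_mul]; exact Submodule.zero_mem _
        | add h g _ _ h1 h2 => rw [add_mul]; exact Submodule.add_mem _ h1 h2
        | smul c h _ h1 =>
          rw [smul_mul_assoc]; exact Submodule.smul_mem _ _ h1
      · rw [← sub_mul, pow_succ]
        exact Ideal.mul_mem_mul h1 (y_mem y i)

/-- The powers of the ideal of the `y_i` are contracted. -/
theorem comap_pow {S' : Type*} [CommRing S'] {p : ℕ} [Fact p.Prime] [CharP S' p]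
    (φ : S →+* S') (hS : ∀ a : S, ∃ c ∈ k, a - c ∈ Iy y)
    (hk : ∀ c ∈ k, c ≠ 0 → IsUnit c) (hkp : ∀ c ∈ k, ∃ d ∈ k, d ^ p = c)
    (h : IsPB p fun i => φ (y i)) (hI : Iy (fun i => φ (y i)) ≠ ⊤) :
    ∀ (j : ℕ) (a : S), φ a ∈ Iy (fun i => φ (y i)) ^ j → a ∈ Iy y ^ j := by
  classical
  have : Nontrivial S' := by
    by_contra hn
    rw [not_nontrivial_iff_subsingleton] at hn
    exact hI (Subsingleton.elim _ _)
  intro j
  induction j with
  | zero => intro a _; rw [pow_zero, Ideal.one_eq_top]; exact Submodule.mem_top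
  | succ j ih =>
    intro a ha
    have h1 := ih a (Ideal.pow_le_pow_right (Nat.le_succ j) ha)
    obtain ⟨f, hf, h2⟩ := exists_form k hS j a h1
    obtain ⟨l, hl⟩ := (Finsupp.mem_span_range_iff_exists_finsupp).1 hf
    have h3 : φ f ∈ Iy (fun i => φ (y i)) ^ (j + 1) := by
      have h4 : φ (a - f) ∈ Iy (fun i => φ (y i)) ^ (j + 1) := by
        have h5 : Ideal.map φ (Iy y ^ (j + 1)) = Iy (fun i => φ (y i)) ^ (j + 1) := by
          rw [Ideal.map_pow]
          congr 1
          unfold Iy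
          rw [Ideal.map_span, ← Set.range_comp]
          rfl
        rw [← h5]
        exact Ideal.mem_map_of_mem φ h2
      have h6 : φ f = φ a - φ (a - f) := by rw [map_sub]; ring
      rw [h6]
      exact Submodule.sub_mem _ ha h4
    have h7 : φ f = ∑ β ∈ l.support, φ (l β : S) * ymon (fun i => φ (y i)) β.1 := by
      rw [← hl, Finsupp.sum, map_sum]
      refine Finset.sum_congr rfl fun β _ => ?_
      rw [Subring.smul_def, smul_eq_mul, map_mul, map_ymon]
    rw [h7] at h3
    have h8 := an_indep h hI (k := φ '' (k : Set S)) ?_ ?_ j l.support (fun β => β.1)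
      (fun β => φ (l β : S)) (fun β _ => ⟨_, (l β).2, rfl⟩) (fun β _ => β.2)
      (fun β _ γ _ hh => Subtype.ext hh) h3
    · have h9 : l = 0 := by
        ext β
        by_cases hβ : β ∈ l.support
        · have h10 := h8 β hβ
          by_contra hne
          have hne' : (l β : S) ≠ 0 := by
            intro h0; exact hne (by rw [h0]; simp)
          have := (hk _ (l β).2 hne').map φ
          rw [h10] at this
          exact not_isUnit_zero this
        · rw [Finsupp.notMem_support_iff.1 hβ]; simp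
      have h11 : f = 0 := by rw [← hl, h9]; simp
      rw [h11, sub_zero] at h2
      exact h2
    · rintro _ ⟨c, hc, rfl⟩ hne
      exact (hk c hc (fun h0 => hne (by rw [h0, map_zero]))).map φ
    · rintro _ ⟨c, hc, rfl⟩
      obtain ⟨d, hd, h1⟩ := hkp c hc
      exact ⟨φ d, ⟨d, hd, rfl⟩, by rw [← map_pow, h1]⟩

end span

end Pool.Agent.ALL_h18
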