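import Pool.Agent.Lib.ALL_h18.ZTS
import Pool.Agent.Lib.ALL_h18.AT3
import Pool.Agent.Lib.ALL_h94.NFD

/-!
# PROJECT ALL, block Z, row T3: the conclusions of the tame toric theorem for `A₂`
-/

set_option autoImplicit false

namespace Pool.Agent.ALL_h18

open Pool.Agent.H15JM (RVal)
open Pool.Agent.LU1 (VPos locv FracIs fixO GoodBasis mem_fixO)
open Pool.Agent.TAO (OVal)
open Pool.Agent.ALL (FR ICl decP)
open Pool.Agent.ALLZ (NRing CN DP FD RD AH le_AH AH_mono mem_CN_iff int_ge)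
open Pool.Agent.ALL6 (AX)

universe u

variable {k Ω : Type u} [Field k] [Field Ω] [Algebra k Ω] {v : RVal Ω} {D : ℕ}
variable {K : IntermediateField k Ω} {N : IntermediateField K Ω}

/-- Integrality over `A ∩ L`. -/
theorem int_CS {A : Subalgebra k Ω} {L : IntermediateField k Ω} (hA : ∀ f ∈ A, f ∈ L) {a : L}
    (ha : IsIntegral A (a : Ω)) : IsIntegral (CS A L) a := by
  obtain ⟨P, hP, hPa⟩ := ha
  let ρ : A →+* CS A L :=
    { toFun := fun f => ⟨⟨f, hA f f.2⟩, f.2⟩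
      map_one' := rfl
      map_mul' := fun _ _ => rfl
      map_zero' := rfl
      map_add' := fun _ _ => rfl }
  refine ⟨P.map ρ, hP.map _, ?_⟩
  rw [Polynomial.eval₂_map]
  apply Subtype.ext
  have h1 := Polynomial.hom_eval₂ P ((algebraMap (CS A L) L).comp ρ) (algebraMap L Ω) a
  exact h1.trans hPa

theorem YP_YA {A : Subalgebra k Ω} {L : IntermediateField k Ω} {yL : Fin D → L} {y : Fin D → Ω}
    (hy : ∀ i, (yL i : Ω) = y i) {j : ℕ} {e : L} (he : e ∈ YP (CS A L) yL j) :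
    (e : Ω) ∈ YA A y j := by
  unfold YP at he
  unfold YA
  induction he using AddSubgroup.closure_induction with
  | mem e he =>
    obtain ⟨β, hβ, b, hb, rfl⟩ := he
    refine AddSubgroup.subset_closure ⟨β, hβ, b, hb, ?_⟩
    unfold ymon
    push_cast
    simp only [hy]
  | zero => exact AddSubgroup.zero_mem _
  | add e f _ _ h1 h2 => exact AddSubgroup.add_mem _ h1 h2
  | neg e _ h1 => exact AddSubgroup.neg_mem _ h1

theorem YA_YP {A : Subalgebra k Ω} {L : IntermediateField k Ω} (hA : ∀ f ∈ A, f ∈ L)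
    {yL : Fin D → L} {y : Fin D → Ω} (hy : ∀ i, (yL i : Ω) = y i) {j : ℕ} {e : Ω}
    (he : e ∈ YA A y j) : ∃ h : e ∈ L, (⟨e, h⟩ : L) ∈ YP (CS A L) yL j := by
  unfold YA at he
  unfold YP
  induction he using AddSubgroup.closure_induction with
  | mem e he =>
    obtain ⟨β, hβ, b, hb, rfl⟩ := he
    refine ⟨mul_mem (prod_mem fun i _ => pow_mem (by rw [← hy i]; exact (yL i).2) _) (hA b hb),
      AddSubgroup.subset_closure ⟨β, hβ, ⟨b, hA b hb⟩, hb, ?_⟩⟩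
    apply Subtype.ext
    unfold ymon
    push_cast
    simp only [hy]
  | zero => exact ⟨L.zero_mem, AddSubgroup.zero_mem _⟩
  | add e f _ _ h1 h2 =>
    obtain ⟨h1, h1'⟩ := h1
    obtain ⟨h2, h2'⟩ := h2
    exact ⟨L.add_mem h1 h2, AddSubgroup.add_mem _ h1' h2'⟩
  | neg e _ h1 =>
    obtain ⟨h1, h1'⟩ := h1
    exact ⟨L.neg_mem h1, AddSubgroup.neg_mem _ h1'⟩

variable {p n r : ℕ} {B B₁ : FR k v D} {hR : NRing v K B.R} {H : Subgroup (N ≃ₐ[K] N)}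
  {w : RVal Ω} {u : Fin r → ℝ}

theorem AX_iff (hu : GoodBasis B.Γ ∅ u) {A : Subalgebra k Ω} (hA : B.R ≤ A)
    {L : IntermediateField k Ω} {xL : Fin r → L} (hx : ∀ i, (xL i : Ω) = B.χ (u i)) {a : L} :
    InX (CS A L) xL a ↔ AX B A (a : Ω) := by
  constructor
  · rintro ⟨M, hM⟩
    have h1 := ALLh94.χ_sum B Finset.univ u hu.mem fun _ => (M : ℤ)
    refine ⟨_, h1.1, ?_⟩
    rw [h1.2]
    have h2 : (∏ i, B.χ (u i) ^ (M : ℤ)) * (a : Ω) = (((∏ i, xL i) ^ M * a : L) : Ω) := by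
      push_cast
      simp only [hx, zpow_natCast, Finset.prod_pow]
    rw [h2]
    exact hM
  · rintro ⟨γ, hγ, h1⟩
    obtain ⟨m, rfl⟩ := hu.gen γ hγ
    have h2 := (ALLh94.χ_sum B Finset.univ u hu.mem m).2
    refine ⟨∑ i, (m i).natAbs, ?_⟩
    rw [mem_CS]
    push_cast
    simp only [hx]
    have h3 : (∏ i, B.χ (u i)) ^ (∑ i, (m i).natAbs) * (a : Ω) =
        (∏ i, B.χ (u i) ^ (((∑ i, (m i).natAbs : ℕ) : ℤ) - m i)) *
          (B.χ (∑ i, (m i : ℝ) * u i) * (a : Ω)) := by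
      rw [h2, ← mul_assoc, ← Finset.prod_mul_distrib, ← Finset.prod_pow]
      congr 1
      refine Finset.prod_congr rfl fun i _ => ?_
      rw [← zpow_add₀ (B.χ_ne _ (hu.mem i)), sub_add_cancel, zpow_natCast]
    rw [h3]
    refine A.mul_mem (A.prod_mem fun i _ => ?_) h1
    have h4 : (0 : ℤ) ≤ ((∑ i, (m i).natAbs : ℕ) : ℤ) - m i := by
      have h5 : (m i).natAbs ≤ ∑ i, (m i).natAbs :=
        Finset.single_le_sum (f := fun i => (m i).natAbs) (fun _ _ => Nat.zero_le _)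
          (Finset.mem_univ i)
      omega
    obtain ⟨t, ht⟩ := Int.eq_ofNat_of_zero_le h4
    rw [ht, zpow_natCast]
    exact A.pow_mem (hA (B.χ_mem _ (hu.mem i) (hu.pos i).le)) _

/-- `w ∘ σ = w` on the decomposition field. -/
theorem WS_eq {hK : ∀ f ∈ B.R, f ∈ K} {L : IntermediateField k Ω} (hL : ∀ a ∈ L, a ∈ N)
    {σ : N ≃ₐ[K] N} (hσ : σ ∈ DP v B.R N hK) {a : L} (ha : (a : Ω) ∈ FD v B.R N hK) :
    WS w L hL σ a = w (a : Ω) := by
  obtain ⟨m, hm, hm'⟩ := (mem_fixO _ _ _ _).1 ha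
  rw [WS_apply]
  have h1 : (⟨(a : Ω), hL a a.2⟩ : N) = m := Subtype.ext hm.symm
  rw [h1, hm' σ hσ, hm]

namespace ZD

variable (h : ZD p n B B₁ hR N H w u)
include h

theorem ctx0 : D2.Ctx0 k v := ⟨h.ctx.triv, h.ctx.res⟩

omit h in
theorem RD_le : RD v B.R N hR.frac.1 ≤ AH v B.R (DP v B.R N hR.frac.1 ⊓ H) :=
  fun _ hf => AH_mono inf_le_left hf

theorem B₁_L {f : Ω} (hf : f ∈ B₁.R) : f ∈ fixO K N (DP v B.R N hR.frac.1 ⊓ H) := by
  rw [h.ring] at hf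
  exact (RD_le (hR := hR) hf).2

theorem B₁_FD {f : Ω} (hf : f ∈ B₁.R) : f ∈ FD v B.R N hR.frac.1 := by
  rw [h.ring] at hf
  exact hf.2

theorem w_χ (γ : ℝ) (hγ : γ ∈ B.Γ) : w (B.χ γ) = γ := by
  rw [← h.same.χ_eq γ hγ]
  exact h.cont.χ γ (by rw [h.same.Γ_eq]; exact hγ)

theorem w_RD : ∀ f ∈ RD v B.R N hR.frac.1, w.Ge 0 f := fun f hf =>
  h.cont.nonneg f (by rw [h.ring]; exact hf)

theorem w_CN [FiniteDimensional K N] : ∀ a ∈ CN v B.R N, w.Ge 0 a := by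
  intro a ha
  have haN : a ∈ N := ALLZ.CN_le a ha
  refine int_ge (R := RD v B.R N hR.frac.1) h.w_RD ((mem_CN_iff hR ⊥ ?_).1 ha)
  exact (mem_fixO _ _ _ _).2 ⟨⟨a, haN⟩, rfl, fun σ hσ => by
    rw [Subgroup.mem_bot.1 hσ.2]; rfl⟩

/-- The instance of `TS0`, as a proposition. -/
abbrev T0 : Prop := TS0 p (kS (fixO K N (DP v B.R N hR.frac.1 ⊓ H)))
      (CS (AH v B.R (DP v B.R N hR.frac.1 ⊓ H)) (fixO K N (DP v B.R N hR.frac.1 ⊓ H)))
      (mS v (AH v B.R (DP v B.R N hR.frac.1 ⊓ H)) (fixO K N (DP v B.R N hR.frac.1 ⊓ H)))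
      (fun i => ⟨B.χ (u i), h.x_mem_K i⟩) (fun j => ⟨B.y j, ZD.y_mem_K B hR _ j⟩) u
      (fun σ : DP v B.R N hR.frac.1 => WS w _ (fixO_le_N _) (σ : N ≃ₐ[K] N))

theorem krull [hp : Fact p.Prime] [CharP Ω p] [FiniteDimensional K N] (hT : h.T0)
    (σ : DP v B.R N hR.frac.1) :
    ∀ a ∈ CS (AH v B.R (DP v B.R N hR.frac.1 ⊓ H)) (fixO K N (DP v B.R N hR.frac.1 ⊓ H)),
      (∀ j : ℕ, ∃ e ∈ YP (CS (AH v B.R (DP v B.R N hR.frac.1 ⊓ H))
        (fixO K N (DP v B.R N hR.frac.1 ⊓ H)))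
        (fun j : Fin D => (⟨B.y j, ZD.y_mem_K B hR _ j⟩ : fixO K N (DP v B.R N hR.frac.1 ⊓ H))) j,
        TAO.VPos (WS w _ (fixO_le_N _) (σ : N ≃ₐ[K] N)) (a - e)) →
      TAO.VPos (WS w _ (fixO_le_N _) (σ : N ≃ₐ[K] N)) a := by
  have hc : CharP (fixO K N (DP v B.R N hR.frac.1 ⊓ H)) p :=
    (algebraMap (fixO K N (DP v B.R N hR.frac.1 ⊓ H)) Ω).charP Subtype.val_injective p
  have hWV : ∀ a : fixO K N (DP v B.R N hR.frac.1 ⊓ H), (a : Ω) ∈ FD v B.R N hR.frac.1 →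
      (TAO.VPos (WS w _ (fixO_le_N _) (σ : N ≃ₐ[K] N)) a ↔ VPos w (a : Ω)) := by
    intro a ha
    unfold TAO.VPos VPos
    rw [WS_eq _ σ.2 ha]
    simp
  have hyB : B₁.y = B.y := h.same.y_eq
  refine hT.krull_of_base σ (CS B₁.R _) ?_ ?_ ?_ ?_ ?_ ?_
  · rintro _ ⟨c, rfl⟩
    exact B₁.R.algebraMap_mem c
  · intro a ha
    rw [mem_CS, h.ring] at ha
    exact RD_le (hR := hR) ha
  · intro a ha
    refine int_CS (fun f hf => h.B₁_L hf) ?_
    rw [h.ring]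
    exact (mem_CN_iff hR H a.2).1 (mem_CS.1 ha).1
  · intro i
    rw [mem_CS]
    change B.y i ∈ B₁.R
    rw [← hyB]
    exact B₁.y_mem i
  · intro a ha
    have ha' : (a : Ω) ∈ B₁.R := ha
    obtain ⟨c, hc⟩ := h.ctx0.residue (B₁.nonneg _ ha')
    obtain ⟨γ, hγ, hγ0, a', ha'', b, hb, hab⟩ := B₁.gen _
      (B₁.R.sub_mem ha' (B₁.R.algebraMap_mem c)) hc
    refine ⟨algebraMap k _ c, ⟨c, rfl⟩, fun i => ⟨b i, h.B₁_L (hb i)⟩, fun i => hb i, ?_⟩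
    have h1 : (((a - algebraMap k _ c - ∑ i, (⟨B.y i, ZD.y_mem_K B hR _ i⟩ :
        fixO K N (DP v B.R N hR.frac.1 ⊓ H)) * ⟨b i, h.B₁_L (hb i)⟩ :
        fixO K N (DP v B.R N hR.frac.1 ⊓ H))) : Ω) = B₁.χ γ * a' := by
      push_cast
      rw [hab, hyB]
      ring
    have hmem : B₁.χ γ * a' ∈ B₁.R := B₁.R.mul_mem (B₁.χ_mem γ hγ hγ0.le) ha''
    rw [hWV _ (by rw [h1]; exact h.B₁_FD hmem), h1]
    intro h0
    have ha0 := right_ne_zero_of_mul h0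
    rw [w.map_mul (B₁.χ_ne γ hγ) ha0, h.cont.χ γ hγ]
    have := h.cont.nonneg a' ha'' ha0
    linarith
  · intro a ha hae
    have ha' : (a : Ω) ∈ B₁.R := ha
    rw [hWV _ (h.B₁_FD ha')]
    refine h.cont.krull _ ha' fun j => ?_
    obtain ⟨e, he, hev⟩ := hae j
    have he' := YP_YA (A := B₁.R) (y := B.y) (fun _ => rfl) he
    refine ⟨e, by rw [hyB]; exact he', ?_⟩
    have heR : (e : Ω) ∈ B₁.R := by
      unfold YA at he'
      refine (AddSubgroup.closure_le (K := B₁.R.toSubring.toAddSubgroup)).2 ?_ he'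
      rintro _ ⟨β, -, b, hb, rfl⟩
      refine B₁.R.mul_mem (B₁.R.prod_mem fun i _ => B₁.R.pow_mem ?_ _) hb
      rw [← hyB]
      exact B₁.y_mem i
    rwa [hWV _ (h.B₁_FD (by push_cast; exact B₁.R.sub_mem ha' heR))] at hev

/-- ROW T3. -/
theorem a2c_of [hp : Fact p.Prime] [CharP Ω p] [FiniteDimensional K N] (hT : h.T0) :
    A2C B w hR.frac.1 N H := by
  have hc : CharP (fixO K N (DP v B.R N hR.frac.1 ⊓ H)) p :=
    (algebraMap (fixO K N (DP v B.R N hR.frac.1 ⊓ H)) Ω).charP Subtype.val_injective p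
  have hfin : Finite (N ≃ₐ[K] N) := inferInstance
  have hTS : TS p (kS (fixO K N (DP v B.R N hR.frac.1 ⊓ H)))
      (CS (AH v B.R (DP v B.R N hR.frac.1 ⊓ H)) (fixO K N (DP v B.R N hR.frac.1 ⊓ H)))
      (mS v (AH v B.R (DP v B.R N hR.frac.1 ⊓ H)) (fixO K N (DP v B.R N hR.frac.1 ⊓ H)))
      (fun i => ⟨B.χ (u i), h.x_mem_K i⟩) (fun j => ⟨B.y j, ZD.y_mem_K B hR _ j⟩) u
      (fun σ : DP v B.R N hR.frac.1 => WS w _ (fixO_le_N _) (σ : N ≃ₐ[K] N)) :=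
    ⟨hT, h.krull hT⟩
  have hBA : B.R ≤ AH v B.R (DP v B.R N hR.frac.1 ⊓ H) := le_AH hR.frac.1 _
  have hx : ∀ i, (((⟨B.χ (u i), h.x_mem_K i⟩ :
      fixO K N (DP v B.R N hR.frac.1 ⊓ H))) : Ω) = B.χ (u i) := fun _ => rfl
  have hW1 : ∀ (a : fixO K N (DP v B.R N hR.frac.1 ⊓ H)),
      WS w _ (fixO_le_N _) ((1 : DP v B.R N hR.frac.1) : N ≃ₐ[K] N) a = w (a : Ω) := fun _ => rfl
  have hval : ∀ (σ : DP v B.R N hR.frac.1) (a : fixO K N (DP v B.R N hR.frac.1 ⊓ H)), a ≠ 0 →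
      WS w _ (fixO_le_N _) (σ : N ≃ₐ[K] N) a = w (a : Ω) := fun σ a ha =>
    hTS.val_eq σ 1 ha
  refine ⟨h.w_χ, h.w_CN, ?_, ?_, ?_, ?_, ?_, ?_, ?_⟩
  · intro σ hσ a ha ha0
    have h1 := hval ⟨σ, hσ⟩ ⟨a, ha⟩ (fun h0 => ha0 (Subtype.ext (by
      have h2 := congrArg (fun z : fixO K N (DP v B.R N hR.frac.1 ⊓ H) => (z : Ω)) h0
      exact h2)))
    exact h1
  · intro a ha hge
    have haL : a ∈ fixO K N (DP v B.R N hR.frac.1 ⊓ H) := by
      obtain ⟨γ, hγ, h1⟩ := ha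
      have hχ : B.χ γ ∈ fixO K N (DP v B.R N hR.frac.1 ⊓ H) := by
        rcases le_total 0 γ with h2 | h2
        · exact base_mem_fixO hR.frac.1 _ (hR.frac.1 _ (B.χ_mem γ hγ h2))
        · have h3 := base_mem_fixO (N := N) hR.frac.1 (DP v B.R N hR.frac.1 ⊓ H)
            (hR.frac.1 _ (B.χ_mem (-γ) (B.Γ.neg_mem hγ) (by linarith)))
          rw [ALLh94.fr_χ_neg B hγ] at h3
          have := inv_mem h3
          rwa [inv_inv] at this
      have h4 : a = (B.χ γ)⁻¹ * (B.χ γ * a) := by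
        rw [inv_mul_cancel_left₀ (B.χ_ne γ hγ)]
      rw [h4]
      exact mul_mem (inv_mem hχ) h1.2
    have h1 := hT.cut ⟨a, haL⟩ ((AX_iff h.basis hBA hx).2 ha) fun σ h0 => by
      rw [hval σ _ h0]
      exact hge fun h2 => h0 (Subtype.ext h2)
    exact h1
  · intro a ha hpos
    have h1 := hT.W_m 1 ⟨a, ha.2⟩ ha (fun h0 => hpos fun h2 => h0 (Subtype.ext h2))
    exact h1.2
  · intro a ha hpos
    have h1 : (⟨⟨a, ha.2⟩, ha⟩ : CS (AH v B.R (DP v B.R N hR.frac.1 ⊓ H))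
        (fixO K N (DP v B.R N hR.frac.1 ⊓ H))) ∈ hT.mI := ⟨ha, hpos⟩
    rw [hT.mI_eq] at h1
    obtain ⟨i, hi, e, he, hie⟩ := Submodule.mem_sup.1 h1
    unfold Iy at hi
    obtain ⟨b, hb⟩ := (Ideal.mem_span_range_iff_exists_fun).1 hi
    refine ⟨fun j => ((b j : fixO K N (DP v B.R N hR.frac.1 ⊓ H)) : Ω), fun j => (b j).2,
      ((e : fixO K N (DP v B.R N hR.frac.1 ⊓ H)) : Ω), e.2, ?_, ?_⟩
    · have h2 := (hT.mem_J.1 he) 1
      intro h0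
      exact h2 fun h3 => h0 (congrArg (algebraMap _ Ω) h3)
    · have h2 := congrArg (fun z : CS (AH v B.R (DP v B.R N hR.frac.1 ⊓ H))
        (fixO K N (DP v B.R N hR.frac.1 ⊓ H)) =>
          ((z : fixO K N (DP v B.R N hR.frac.1 ⊓ H)) : Ω)) hie
      simp only at h2
      rw [← hb] at h2
      push_cast at h2
      rw [← h2]
      congr 1
      refine Finset.sum_congr rfl fun j _ => ?_
      rw [mul_comm]
      rfl
  · intro a ha ha0
    obtain ⟨b, hb0, hb1, hb2, hb3⟩ := hTS.exists_unit ⟨a, ha⟩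
      (fun h0 => ha0 (congrArg Subtype.val h0))
    refine ⟨b, fun h0 => hb0 (Subtype.ext h0), (AX_iff h.basis hBA hx).1 hb1, ?_, ?_⟩
    · have h1 := (AX_iff h.basis hBA hx).1 hb2
      push_cast at h1
      exact h1
    · exact hb3 1
  · obtain ⟨M, hM, -, hM'⟩ := hT.tors
    refine ⟨M, hM, fun a ha ha0 => ?_⟩
    obtain ⟨m, hm⟩ := hM' 1 ⟨a, ha⟩ (fun h0 => ha0 (congrArg Subtype.val h0))
    rw [hW1] at hm
    change (M : ℝ) * w a = _ at hm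
    rw [hm]
    exact (ALLh94.χ_sum B Finset.univ u h.basis.mem m).1
  · intro a ha hae
    have h1 := h.krull hT 1 ⟨a, ha.2⟩ ha fun j => ?_
    · intro h0
      exact h1 fun h2 => h0 (congrArg Subtype.val h2)
    · obtain ⟨e, he, hev⟩ := hae j
      obtain ⟨he', he''⟩ := YA_YP (A := AH v B.R (DP v B.R N hR.frac.1 ⊓ H))
        (L := fixO K N (DP v B.R N hR.frac.1 ⊓ H)) (fun f hf => (ALLZ.mem_AH.1 hf).2)
        (yL := fun j : Fin D => (⟨B.y j, ZD.y_mem_K B hR _ j⟩ :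
          fixO K N (DP v B.R N hR.frac.1 ⊓ H))) (fun _ => rfl) he
      refine ⟨_, he'', ?_⟩
      intro h0
      refine hev fun h2 => h0 (Subtype.ext ?_)
      exact h2

end ZD

end Pool.Agent.ALL_h18
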