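import Pool.Agent.Lib.ALL.Defs
import Pool.Agent.Lib.ALL_h66.RDFrame
import Pool.Agent.Lib.ALL_h59.L1
import Pool.Agent.Lib.ALL_h18.AT2
import Pool.Agent.Lib.ALL6_h36.FRTame

/-!
# PROJECT ALL, block Z: definitions for the assembly

`B` is a frame of `K` (the frame `F'` of `ZStmt`), `A₂ = AH v B.R (DP ⊓ H)`, `K₂ = fixO K N (DP ⊓ H)`,
`w` a valuation of `Ω` extending the content valuation of the frame with ring `RD`.
-/

set_option autoImplicit false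

namespace Pool.Agent.ALL_h18

open Pool.Agent.H15JM (RVal)
open Pool.Agent.LU1 (VPos locv FracIs fixO GoodBasis mem_fixO)
open Pool.Agent.TAO (OVal)
open Pool.Agent.ALL (FR ICl decP)
open Pool.Agent.ALLZ (NRing CN DP FD RD AH le_AH)
open Pool.Agent.ALL6 (AX)

universe u

variable {k Ω : Type u} [Field k] [Field Ω] [Algebra k Ω] {v : RVal Ω} {D : ℕ}

/-- `w` extends to `Ω` the content valuation of the frame `B`. -/
structure IsCont (B : FR k v D) (w : RVal Ω) : Prop where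
  χ : ∀ γ ∈ B.Γ, w (B.χ γ) = γ
  nonneg : ∀ f ∈ B.R, w.Ge 0 f
  val : ∀ f ∈ B.R, f ≠ 0 → w f ∈ B.Γ
  div : ∀ f ∈ B.R, f ≠ 0 → f / B.χ (w f) ∈ B.R

/-- The elements of `(y)^j A`. -/
def YA (A : Subalgebra k Ω) (y : Fin D → Ω) (j : ℕ) : AddSubgroup Ω :=
  AddSubgroup.closure {e | ∃ β : Fin D → ℕ, ∑ i, β i = j ∧ ∃ b ∈ A, e = (∏ i, y i ^ β i) * b}

/-- The monomials `x^i y^α`, `0 ≤ i, α < p`. -/
def mm {A : Type*} [CommMonoid A] {r p : ℕ} (x : Fin r → A) (y : Fin D → A)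
    (μ : (Fin r → Fin p) × (Fin D → Fin p)) : A :=
  (∏ i, x i ^ (μ.1 i : ℕ)) * ∏ j, y j ^ (μ.2 j : ℕ)

/-- The properties of the content valuation of `B` which are used: separatedness, (6.1) and the
value groups of the extensions `L` of degree `< p` of `F = Frac B.R`, for every valuation `W` of
`L` which agrees with `w` on `F`. -/
structure ContP (p : ℕ) (B : FR k v D) (F : IntermediateField k Ω) (w : RVal Ω) : Prop
    extends IsCont B w where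
  krull : ∀ f ∈ B.R, (∀ j, ∃ e ∈ YA B.R B.y j, VPos w (f - e)) → VPos w f
  low : ∀ {r : ℕ} (u : Fin r → ℝ), GoodBasis B.Γ ∅ u → ∀ (L : IntermediateField F Ω)
    [FiniteDimensional F L], Module.finrank F L < p → ∀ W : RVal L,
    (∀ f : F, f ≠ 0 → W (algebraMap F L f) = w (f : Ω)) →
    ∀ (xL : Fin r → L) (yL : Fin D → L), (∀ i, (xL i : Ω) = B.χ (u i)) →
      (∀ j, (yL j : Ω) = B.y j) →
    ∀ (c : (Fin r → Fin p) × (Fin D → Fin p) → L) (τ : ℝ),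
      W.Ge τ (∑ μ, mm xL yL μ * c μ ^ p) →
      ∀ μ, c μ ≠ 0 → τ ≤ ∑ i, ((μ.1 i : ℕ) : ℝ) * u i + p * W (c μ)
  tors : ∀ (L : IntermediateField F Ω) [FiniteDimensional F L], Module.finrank F L < p →
    ∀ W : RVal L, (∀ f : F, f ≠ 0 → W (algebraMap F L f) = w (f : Ω)) → ∀ a : L, a ≠ 0 →
      ∃ e : ℕ, 0 < e ∧ e ≤ Module.finrank F L ∧ (e : ℝ) * W a ∈ B.Γ

variable {K : IntermediateField k Ω} {N : IntermediateField K Ω}

/-- `w ∘ σ` on `N`. -/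
def wσ (w : RVal Ω) (σ : N ≃ₐ[K] N) : OVal ℝ N where
  toFun a := w (σ a)
  map_mul' a b ha hb := by
    rw [map_mul]
    exact w.map_mul (by simpa using ha) (by simpa using hb)
  map_add' a b ha hb hab := by
    rw [map_add]
    refine w.map_add (by simpa using ha) (by simpa using hb) ?_
    intro h
    apply hab
    have h1 : σ (a + b) = 0 := by
      apply Subtype.ext
      rw [map_add]
      exact h
    exact (map_eq_zero_iff σ σ.injective).1 h1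

theorem wσ_apply (w : RVal Ω) (σ : N ≃ₐ[K] N) (a : N) : wσ w σ a = w (σ a : N) := rfl

/-- The conclusions about `A₂` (the tame toric theorem and its consequences): all `w ∘ σ`,
`σ ∈ DP`, agree on `K₂`, and so on. -/
structure A2C (B : FR k v D) (w : RVal Ω) (hR : ∀ f ∈ B.R, f ∈ K)
    (N : IntermediateField K Ω) (H : Subgroup (N ≃ₐ[K] N)) : Prop where
  w_χ : ∀ γ ∈ B.Γ, w (B.χ γ) = γ
  w_ge : ∀ a ∈ CN v B.R N, w.Ge 0 a
  val_eq : ∀ σ ∈ DP v B.R N hR, ∀ a : N, (a : Ω) ∈ fixO K N (DP v B.R N hR ⊓ H) → a ≠ 0 →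
    w (σ a : N) = w (a : Ω)
  cut : ∀ a : Ω, AX B (AH v B.R (DP v B.R N hR ⊓ H)) a → w.Ge 0 a →
    a ∈ AH v B.R (DP v B.R N hR ⊓ H)
  pos : ∀ a ∈ AH v B.R (DP v B.R N hR ⊓ H), VPos w a → VPos v a
  gen : ∀ a ∈ AH v B.R (DP v B.R N hR ⊓ H), VPos v a → ∃ b : Fin D → Ω,
    (∀ j, b j ∈ AH v B.R (DP v B.R N hR ⊓ H)) ∧ ∃ e ∈ AH v B.R (DP v B.R N hR ⊓ H),
      VPos w e ∧ a = ∑ j, B.y j * b j + e
  unit : ∀ a ∈ fixO K N (DP v B.R N hR ⊓ H), a ≠ 0 → ∃ b, b ≠ 0 ∧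
    AX B (AH v B.R (DP v B.R N hR ⊓ H)) b ∧ AX B (AH v B.R (DP v B.R N hR ⊓ H)) b⁻¹ ∧ w b = w a
  tors : ∃ e : ℕ, 0 < e ∧ ∀ a ∈ fixO K N (DP v B.R N hR ⊓ H), a ≠ 0 → (e : ℝ) * w a ∈ B.Γ
  krull : ∀ a ∈ AH v B.R (DP v B.R N hR ⊓ H),
    (∀ j, ∃ e ∈ YA (AH v B.R (DP v B.R N hR ⊓ H)) B.y j, VPos w (a - e)) → VPos w a

end Pool.Agent.ALL_h18
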