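import Pool.Agent.Lib.ALL.Defs

/-!
# PROJECT ALL, block Z: the index for a refinement
-/

set_option autoImplicit false

namespace Pool.Agent.ALL_h18

open Pool.Agent.H15JM (RVal)
open Pool.Agent.LU1 (VPos locv FracIs fixO)
open Pool.Agent.ALL (FR ICl decP)

universe u

variable {k Ω : Type u} [Field k] [Field Ω] [Algebra k Ω] {v : RVal Ω} {D : ℕ}
variable {K : IntermediateField k Ω} {N : IntermediateField K Ω} {H : Subgroup (N ≃ₐ[K] N)}

theorem int_of_le {R R' : Subalgebra k Ω} (h : R ≤ R') {a : Ω} (ha : IsIntegral R a) :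
    IsIntegral R' a := by
  obtain ⟨P, hP, hPa⟩ := ha
  refine ⟨P.map (Subalgebra.inclusion h).toRingHom, hP.map _, ?_⟩
  rw [Polynomial.eval₂_map]
  exact hPa

/-- The integral elements of `N` are stable under the Galois group. -/
theorem int_map' {R : Subalgebra k Ω} (hR : ∀ f ∈ R, f ∈ K) (σ : N ≃ₐ[K] N) {n : N}
    (h : IsIntegral R (n : Ω)) : IsIntegral R ((σ n : N) : Ω) := by
  obtain ⟨P, hP, hPn⟩ := h
  refine ⟨P, hP, ?_⟩
  let ι : R →+* N := (algebraMap K N).comp
    { toFun := fun f => (⟨f, hR f f.2⟩ : K)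
      map_one' := rfl
      map_mul' := fun _ _ => rfl
      map_zero' := rfl
      map_add' := fun _ _ => rfl }
  have h1 : ∀ m : N, Polynomial.eval₂ (algebraMap R Ω) (m : Ω) P =
      ((Polynomial.eval₂ ι m P : N) : Ω) := by
    intro m
    have := Polynomial.hom_eval₂ P ι (algebraMap N Ω) m
    exact this.symm
  rw [h1] at hPn ⊢
  have h2 : Polynomial.eval₂ ι n P = 0 := Subtype.ext hPn
  have h3 : Polynomial.eval₂ ι (σ n) P = σ (Polynomial.eval₂ ι n P) := by
    have h4 := Polynomial.hom_eval₂ P ι (σ : N →+* N) n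
    rw [show (σ : N →+* N) (Polynomial.eval₂ ι n P) = σ (Polynomial.eval₂ ι n P) from rfl] at h4
    rw [h4]
    congr 1
    ext f
    change (((algebraMap K N _) : N) : Ω) = ((σ (algebraMap K N _) : N) : Ω)
    rw [σ.commutes]
  rw [h3, h2, map_zero]
  rfl

theorem decP_mono {R R' : Subalgebra k Ω} (hRR' : R ≤ R') (hR' : ∀ f ∈ R', f ∈ K) :
    decP v R' K N ≤ decP v R K N := by
  intro σ hσ a ha
  have hR : ∀ f ∈ R, f ∈ K := fun f hf => hR' f (hRR' hf)
  exact ⟨int_map' hR σ ha, int_map' hR σ⁻¹ ha, (hσ a (int_of_le hRR' ha)).2.2⟩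

/-- ROW T7. -/
theorem idx_le [FiniteDimensional K N] {F F' : FR k v D} (hF : F.Le F')
    (hK : ∀ f ∈ F'.R, f ∈ K) :
    H.relIndex (decP v F'.R K N) ≤ H.relIndex (decP v F.R K N) := by
  have hfin : Finite (N ≃ₐ[K] N) := inferInstance
  refine Subgroup.relIndex_le_of_le_right (decP_mono hF.le hK) ?_
  rw [Subgroup.relIndex]
  exact Subgroup.index_ne_zero_of_finite

/-- The field of fractions of a refinement. -/
theorem frac_of_le {F F' : FR k v D} (hF : F.Le F') (hK : FracIs F.R K) : FracIs F'.R K := by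
  refine ⟨fun f hf => ?_, fun g hg => ?_⟩
  · obtain ⟨a, ha, b, hb, -, rfl⟩ := hF.den f hf
    exact div_mem (hK.1 a ha) (hK.1 b hb)
  · obtain ⟨a, ha, b, hb, hb0, rfl⟩ := hK.2 g hg
    exact ⟨a, hF.le ha, b, hF.le hb, hb0, rfl⟩

end Pool.Agent.ALL_h18
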