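import Pool.Agent.Lib.ALL.Iface
import Pool.Agent.Lib.ALL_h18.ZA2
import Pool.Agent.Lib.ALL_h18.ZIdx
import Pool.Agent.Lib.ALL_h59.T2
import Pool.Agent.Lib.ALL6_h36.T4
import Pool.Agent.Lib.ALL_h61.T5
import Pool.Agent.Lib.ALL_h44.ContP
import Pool.Agent.Lib.ALL_h66.CoordC
import Pool.Agent.Lib.ALL_h94.Norm
import Pool.Agent.Lib.ALL_h85.Beta

/-!
# PROJECT ALL, block Z: assembly
-/

set_option autoImplicit false

namespace Pool.Agent.ALL_h18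

open Pool.Agent.H15JM (RVal)
open Pool.Agent.LU1 (VPos locv FracIs fixO GoodBasis mem_fixO)
open Pool.Agent.TAO (OVal)
open Pool.Agent.ALL (FR ICl decP XD)
open Pool.Agent.ALLZ (NRing CN DP FD RD AH le_AH)
open Pool.Agent.ALL6 (AX)

universe u

variable {k Ω : Type u} [Field k] [Field Ω] [Algebra k Ω] {v : RVal Ω} {D : ℕ}
variable {K : IntermediateField k Ω} {N : IntermediateField K Ω} {n r : ℕ}

/-- Block Z from the `p`-coordinates of `C[1/x]`. -/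
theorem z_core (p : ℕ) [hp : Fact p.Prime] [CharP k p] [IsAlgClosed Ω] (h : TA.CtxR k v n r)
    (hr : 0 < r) (hn : n = r + D) {E : IntermediateField k Ω}
    [FiniteDimensional K N] [IsGalois K N] (H : Subgroup (N ≃ₐ[K] N)) {F F' : FR k v D}
    (hfrac : FracIs F.R K) (hfix : fixO K N H = E) (hidx : H.relIndex (decP v F.R K N) < p)
    (hF : F.Le F')
    (hcC : ∀ u : Fin r → ℝ, GoodBasis F'.Γ ∅ u → ∀ a ∈ AH v F'.R H,
      ∃ c : (Fin r → Fin p) × (Fin D → Fin p) → Ω,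
        (∀ μ, ∃ M : ℕ, (∏ i, F'.χ (u i)) ^ M * c μ ∈ AH v F'.R H) ∧
        a = ∑ μ, mm (fun i => F'.χ (u i)) F'.y μ * c μ ^ p) :
    ∃ C : FR k v D, C.R = ICl v F'.R E ∧ (∀ γ ∈ F'.Γ, γ ∈ C.Γ) ∧
      (∀ γ ∈ F'.Γ, C.Un (F'.χ γ / C.χ γ)) ∧ C.y = F'.y := by
  classical
  have hcΩ : CharP Ω p := (Algebra.charP_iff k Ω p).1 inferInstance
  have hka : IsAlgClosed k := ALLh85.isAlgClosed_of_ctx h.toCtx0
  have hk : ∀ c : k, ∃ d : k, d ^ p = c := fun c => IsAlgClosed.exists_pow_nat_eq c hp.out.pos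
  have hfrac' : FracIs F'.R K := frac_of_le hF hfrac
  have hR : NRing v K F'.R := ALLh94.fr_NRing p h hk hr hn F' hfrac'
  have h0 : D2.Ctx0 k v := ⟨h.triv, h.res⟩
  obtain ⟨B₁, hS, hB₁⟩ := ALLZ.RD_frame h0 F' hR N
  have hRD := ALLZ.RD_nring (N := N) hR
  obtain ⟨w, hw⟩ := exists_contP (p := p) h hr hn B₁ (F := FD v F'.R N hR.frac.1)
    (by rw [hB₁]; exact hRD.frac)
  obtain ⟨u, hu⟩ := ALLh94.fr_exists_basis h hr F' ∅ (fun γ hγ => absurd hγ (Finset.notMem_empty γ))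
  rw [Finset.coe_empty] at hu
  have hxR : (∏ i, F'.χ (u i)) ∈ F'.R :=
    F'.R.prod_mem fun i _ => F'.χ_mem _ (hu.mem i) (hu.pos i).le
  have hx0 : (∏ i, F'.χ (u i)) ≠ 0 := Finset.prod_ne_zero_iff.2 fun i _ => F'.χ_ne _ (hu.mem i)
  have hidx' : H.relIndex (DP v F'.R N hR.frac.1) < p := by
    rw [← ALLZ.decP_eq hR.frac.1]
    exact (idx_le hF hfrac'.1).trans_lt hidx
  have hZ : ZD p n F' B₁ hR N H w u :=
    { ctx := h, rpos := hr, hn := hn, idx := hidx', same := hS, ring := hB₁, cont := hw,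
      basis := hu
      coord := fun a ha => ALLZ.pcoord_A2 h0 hR H hxR hx0 (hcC u hu) a ha }
  have hA := hZ.a2c_of (hZ.ts0 hk)
  obtain ⟨C₂, h1, h2, h3, h4, h5⟩ := exists_C2 hk hZ hA
  obtain ⟨C, c1, c2, c3, c4⟩ := exists_C hk hZ hA C₂ h1 h2 h3 h4 h5
  refine ⟨C, ?_, fun γ hγ => ?_, c4, c3⟩
  · rw [c1, ← hfix]
    ext a
    rw [ALLZ.mem_ICl_fixO h0 hR H]
    exact Iff.rfl
  · rw [c2, h2]
    refine ⟨F'.χ γ, ?_, F'.χ_ne γ hγ, hZ.w_χ γ hγ⟩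
    rcases le_total 0 γ with h6 | h6
    · exact base_mem_fixO hR.frac.1 _ (hR.frac.1 _ (F'.χ_mem γ hγ h6))
    · have h7 := base_mem_fixO (N := N) hR.frac.1 (DP v F'.R N hR.frac.1 ⊓ H)
        (hR.frac.1 _ (F'.χ_mem (-γ) (F'.Γ.neg_mem hγ) (by linarith)))
      rw [ALLh94.fr_χ_neg F' hγ] at h7
      have := inv_mem h7
      rwa [inv_inv] at this

/-- **Block Z** (sections 6, 7) of PROJECT ALL. -/
theorem zStmt (k : Type u) [Field k] (p : ℕ) [hp : Fact p.Prime] [CharP k p] (n : ℕ) :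
    ALL.ZStmt k p n := by
  intro Ω _ _ _ v r D h hr hn E Z F K N _ _ H Q Q' _ _ _ hX F' hF hm
  have hcΩ : CharP Ω p := (Algebra.charP_iff k Ω p).1 inferInstance
  have hka : IsAlgClosed k := ALLh85.isAlgClosed_of_ctx h.toCtx0
  have hk : ∀ c : k, ∃ d : k, d ^ p = c := fun c => IsAlgClosed.exists_pow_nat_eq c hp.out.pos
  have hfrac' : FracIs F'.R K := frac_of_le hF hX.frac
  have hR : NRing v K F'.R := ALLh94.fr_NRing p h hk hr hn F' hfrac'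
  exact z_core p h hr hn H hX.frac hX.fix hX.idx hF fun u hu =>
    coordC hk h hr hn hX hF hm hR u hu

end Pool.Agent.ALL_h18
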